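import Pool.Agent.H81.ST.MeasAbs

/-! MEASD for MP_0b97f5_mp.  helper81 -/

open Set Filter Topology Metric MeasureTheory
open scoped ENNReal NNReal

noncomputable section

namespace Pool.Agent.H81.ST

open H31.ST

theorem Mm_congr (lam : ℝ) (a b : ℕ → ℕ) (E : ℝ) : ∀ m : ℕ, (∀ k, k + 2 ≤ m → a k = b k) →
    Mm lam a E m = Mm lam b E m
  | 0, _ => rfl
  | 1, _ => rfl
  | (m + 2), h => by
    simp only [Mm]
    rw [Mm_congr lam a b E m (fun k hk => h k (by omega)),
      Mm_congr lam a b E (m + 1) (fun k hk => h k (by omega)), h m le_rfl]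

/-- the compact approximations of the spectrum -/
def KK (lam : ℝ) (a : ℕ → ℕ) (n : ℕ) : Set ℝ :=
  {E | |xt lam a (n + 1) E| ≤ 2} ∪ {E | |xt lam a (n + 2) E| ≤ 2}

theorem KK_congr (lam : ℝ) (a b : ℕ → ℕ) (n : ℕ) (h : ∀ k, k ≤ n → a k = b k) :
    KK lam a n = KK lam b n := by
  unfold KK xt
  have h1 : ∀ E, Mm lam a E (n + 1) = Mm lam b E (n + 1) := fun E =>
    Mm_congr lam a b E (n + 1) (fun k hk => h k (by omega))
  have h2 : ∀ E, Mm lam a E (n + 2) = Mm lam b E (n + 2) := fun E =>
    Mm_congr lam a b E (n + 2) (fun k hk => h k (by omega))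
  simp only [h1, h2]

theorem KK_props (hE : T_ESC) (hP : T_POLY) {lam : ℝ} (hlam : 0 < lam) {a : ℕ → ℕ}
    (ha : ∀ k, 1 ≤ a k) : (∀ n, IsCompact (KK lam a n)) ∧ (∀ n, KK lam a (n + 1) ⊆ KK lam a n) ∧
      SpecSet lam a = ⋂ n, KK lam a n := by
  have hxt0 : ∀ E, xt lam a 0 E = 2 := fun E => by
    simp only [xt, Mm, Matrix.trace_fin_two_of]
    norm_num
  have hqd : ∀ n, 1 ≤ n → 1 ≤ qd a n := by
    intro n
    induction n using Nat.strong_induction_on with
    | _ n ih =>
      intro hn
      rcases n with _ | _ | n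
      · omega
      · exact le_rfl
      · have h1 := ih (n + 1) (by omega) (by omega)
        have h2 := ha n
        simp only [qd]
        nlinarith
  have hcont : ∀ n, Continuous (xt lam a n) := by
    intro n
    rcases Nat.eq_zero_or_pos n with rfl | hn
    · have : xt lam a 0 = fun _ => 2 := funext fun E => hxt0 E
      rw [this]; exact continuous_const
    · obtain ⟨p, -, -, hp⟩ := hP lam a ha n hn
      have : xt lam a n = fun E => p.eval E := funext fun E => (hp E).symm
      rw [this]; exact p.continuous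
  have hclosed : ∀ n, IsClosed {E | |xt lam a n E| ≤ 2} := fun n =>
    isClosed_le (hcont n).abs continuous_const
  have hbdd : ∀ n, 1 ≤ n → Bornology.IsBounded {E | |xt lam a n E| ≤ 2} := by
    intro n hn
    obtain ⟨p, -, hdeg, hp⟩ := hP lam a ha n hn
    have hpos : 0 < p.degree := by
      rw [← Polynomial.natDegree_pos_iff_degree_pos, hdeg]
      exact hqd n hn
    have h1 : Tendsto (fun E : ℝ => ‖p.eval E‖) (Bornology.cobounded ℝ) atTop :=
      p.tendsto_norm_atTop hpos (tendsto_norm_cobounded_atTop)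
    have h2 : ∀ᶠ E in Bornology.cobounded ℝ, 2 < ‖p.eval E‖ := h1.eventually (eventually_gt_atTop 2)
    rw [Bornology.isBounded_def]
    filter_upwards [h2] with E hE'
    simp only [mem_compl_iff, mem_ofPred_eq, not_le]
    rw [← hp E]; exact hE'
  refine ⟨fun n => Metric.isCompact_of_isClosed_isBounded ((hclosed _).union (hclosed _))
    ((hbdd _ (by omega)).union (hbdd _ (by omega))), ?_, ?_⟩
  · intro n E hE1
    by_contra hnot
    simp only [KK, mem_union, mem_ofPred_eq, not_or, not_le] at hnot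
    have h := hE lam hlam a ha (n + 1) E hnot.1 hnot.2
    rcases hE1 with h1 | h1
    · have := h (n + 1 + 1) (by omega)
      simp only [mem_ofPred_eq] at h1
      linarith
    · have := h (n + 1 + 2) (by omega)
      simp only [mem_ofPred_eq] at h1
      linarith
  · ext E
    simp only [SpecSet, mem_ofPred_eq, mem_iInter]
    constructor
    · intro h n
      exact h (n + 1)
    · intro h n
      rcases n with _ | n
      · left; rw [hxt0]; norm_num
      · exact h n

theorem subset_iff (hE : T_ESC) (hP : T_POLY) {lam : ℝ} (hlam : 0 < lam) {a : ℕ → ℕ}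
    (ha : ∀ k, 1 ≤ a k) {U : Set ℝ} (hU : IsOpen U) :
    SpecSet lam a ⊆ U ↔ ∃ n, KK lam a n ⊆ U := by
  obtain ⟨h1, h2, h3⟩ := KK_props hE hP hlam ha
  constructor
  · intro h
    by_contra hno
    push Not at hno
    have hne : ∀ n, (KK lam a n \ U).Nonempty := fun n => by
      have := hno n
      rw [not_subset] at this
      obtain ⟨x, hx, hxU⟩ := this
      exact ⟨x, hx, hxU⟩
    have := IsCompact.nonempty_iInter_of_sequence_nonempty_isCompact_isClosed
      (fun n => KK lam a n \ U) (fun n => Set.sdiff_subset_sdiff_left (h2 n)) hne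
      ((h1 0).diff hU) (fun n => ((h1 n).diff hU).isClosed)
    obtain ⟨x, hx⟩ := this
    rw [mem_iInter] at hx
    have hxS : x ∈ SpecSet lam a := by
      rw [h3, mem_iInter]; exact fun n => (hx n).1
    exact (hx 0).2 (h hxS)
  · rintro ⟨n, hn⟩
    rw [h3]
    exact (iInter_subset _ n).trans hn

theorem measD : MeasurableSet {a : ℕ → ℕ | ∀ k, 1 ≤ a k} := by
  rw [ofPred_forall]
  exact MeasurableSet.iInter fun k => (measurable_pi_apply k) (MeasurableSet.of_discrete (s := {n | 1 ≤ n}))

theorem meas_KK (lam : ℝ) (n : ℕ) (U : Set ℝ) : MeasurableSet {a : ℕ → ℕ | KK lam a n ⊆ U} := by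
  let r : (ℕ → ℕ) → (Fin (n + 1) → ℕ) := fun a i => a i
  have hr : Measurable r := measurable_pi_lambda _ fun i => measurable_pi_apply _
  have h1 : {a : ℕ → ℕ | KK lam a n ⊆ U} = r ⁻¹' (r '' {a : ℕ → ℕ | KK lam a n ⊆ U}) := by
    ext a
    constructor
    · intro h
      exact ⟨a, h, rfl⟩
    · rintro ⟨b, hb, hab⟩
      have : KK lam a n = KK lam b n := KK_congr lam a b n (fun k hk => by
        have := congrFun hab ⟨k, by omega⟩
        exact this.symm)
      simp only [mem_ofPred_eq] at hb ⊢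
      rw [this]; exact hb
  rw [h1]
  exact hr (Set.to_countable _).measurableSet

theorem measd (hE : T_ESC) (hP : T_POLY) (hC : T_CPT) : T_MEASD := by
  intro lam hlam
  have := meas_abs {a : ℕ → ℕ | ∀ k, 1 ≤ a k} measD (fun a => SpecSet lam a)
    (fun a ha => (hC lam hlam a ha).1) (fun a ha => (hC lam hlam a ha).2) (by
      intro U hU
      have h1 : {a : ℕ → ℕ | a ∈ {a : ℕ → ℕ | ∀ k, 1 ≤ a k} ∧ SpecSet lam a ⊆ U} =
          {a : ℕ → ℕ | ∀ k, 1 ≤ a k} ∩ ⋃ n, {a : ℕ → ℕ | KK lam a n ⊆ U} := by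
        ext a
        simp only [mem_ofPred_eq, mem_inter_iff, mem_iUnion]
        exact and_congr_right (fun ha => subset_iff hE hP hlam ha hU)
      rw [h1]
      exact measD.inter (MeasurableSet.iUnion fun n => meas_KK lam n U))
  exact this

end Pool.Agent.H81.ST
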