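import Pool.Agent.H81.ST.Transfer

/-! TRANSFER for MP_0b97f5_mp, second part.  helper81 -/

open Set Filter Topology Metric MeasureTheory
open scoped ENNReal NNReal

noncomputable section

namespace Pool.Agent.H81.ST

open H31.ST

/-- abstract cover property -/
def CoverProp (B : Set ℝ) {ι : Type} (J : ι → Set ℝ) (K c : ℝ) (x : ℝ → ℝ) : Prop :=
  ∀ r : ℝ, 0 < r → K * r < 1 → ∀ u : ℝ, ∃ F : Finset ι, (F.card : ℝ) ≤ QQ K c r ∧
      (∀ j ∈ F, Bornology.IsBounded (J j) ∧ Metric.diam (J j) ≤ K * r ∧ (J j).Nonempty) ∧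
      ∀ y ∈ B, |x y - u| ≤ r → ∃ j ∈ F, y ∈ J j

theorem ubd_empty_le {A : Set ℝ} (hA : IsCompact A) (hAne : A.Nonempty) : ubd ∅ ≤ ubd A := by
  rw [ubd_def, ubd_def]
  refine limsup_le_limsup ?_ (by isBoundedDefault) (by isBoundedDefault)
  filter_upwards [Ioo_mem_nhdsGT (show (0 : ℝ) < 1 from one_pos)] with ε hε
  have h0 : Nc ε (∅ : Set ℝ) = 0 := by simp [Nc]
  rw [h0]
  have hlog : 0 < Real.log (1 / ε) := Real.log_pos (by rw [lt_div_iff₀ hε.1]; linarith [hε.2])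
  have hN : (1 : ℝ) ≤ Nc ε A := by exact_mod_cast one_le_Nc hA hAne hε.1
  have := div_nonneg (Real.log_nonneg hN) hlog.le
  simpa using this

theorem ubd_part {A B : Set ℝ} {ι : Type} {J : ι → Set ℝ} {K c : ℝ} (hA : IsCompact A)
    (hB : IsCompact B) (hAne : A.Nonempty) (hK : 1 ≤ K) (hc : 0 < c) (hc1 : c < 1) (x : ℝ → ℝ)
    (hx : ∀ y ∈ B, x y ∈ A) (h : CoverProp B J K c x) : ubd B ≤ ubd A := by
  classical
  have hK0 : 0 < K := by linarith
  rcases B.eq_empty_or_nonempty with rfl | hBne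
  · exact ubd_empty_le hA hAne
  · refine EReal.le_of_forall_lt_iff_le.1 ?_
    intro t ht
    refine (ubd_thm B hB hBne t).2 ?_
    intro s' hs'
    obtain ⟨CA, hCA⟩ := (ubd_thm A hA hAne t).1 ht.le ((t + s') / 2) (by linarith)
    obtain ⟨CQ, hCQ0, hCQ⟩ := QQ_le hK hc hc1 ((s' - t) / 2) (by linarith)
    refine ⟨max CA 0 * CQ * K ^ s', ?_⟩
    intro ε hε
    change (Nc ε B : ℝ) ≤ _
    set r := ε / K with hr
    have hr0 : 0 < r := by have := hε.1; positivity
    have hKr : K * r = ε := by rw [hr]; field_simp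
    have hr1 : K * r < 1 := by rw [hKr]; exact hε.2
    have hrI : r ∈ Ioo (0 : ℝ) 1 := ⟨hr0, by nlinarith⟩
    have hNA : (Nc r A : ℝ) ≤ CA * r ^ (-((t + s') / 2)) := hCA r hrI
    have hQ := hCQ r hr0 hr1
    obtain ⟨G, hG, hGc⟩ := exists_cover hA hr0
    choose F hF1 hF2 hF3 using h r hr0 hr1
    have hpt : ∀ j : ι, ∃ p : ℝ, (J j).Nonempty → p ∈ J j := by
      intro j
      by_cases hj : (J j).Nonempty
      · obtain ⟨p, hp⟩ := hj; exact ⟨p, fun _ => hp⟩
      · exact ⟨0, fun h => absurd h hj⟩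
    choose pt hpt using hpt
    set GB : Finset ℝ := (G.biUnion F).image pt with hGB
    have hQQ0 : 0 ≤ QQ K c r := le_trans (by positivity) (hF1 0)
    have h1 : (GB.card : ℝ) ≤ Nc r A * QQ K c r := by
      have h2 : GB.card ≤ ∑ u ∈ G, (F u).card := Finset.card_image_le.trans Finset.card_biUnion_le
      calc (GB.card : ℝ) ≤ ((∑ u ∈ G, (F u).card : ℕ) : ℝ) := by exact_mod_cast h2
        _ = ∑ u ∈ G, ((F u).card : ℝ) := by push_cast; rfl
        _ ≤ ∑ _u ∈ G, QQ K c r := Finset.sum_le_sum (fun u _ => hF1 u)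
        _ = Nc r A * QQ K c r := by rw [Finset.sum_const, nsmul_eq_mul, hG]
    have h3 : Nc ε B ≤ GB.card := by
      apply Nc_le hε.1.le
      intro y hy
      obtain ⟨u, hu, huy⟩ := hGc (x y) (hx y hy)
      obtain ⟨j, hj, hyj⟩ := hF3 u y hy huy
      refine ⟨pt j, Finset.mem_image_of_mem _ (Finset.mem_biUnion.2 ⟨u, hu, hj⟩), ?_⟩
      obtain ⟨hb, hd, hne⟩ := hF2 u j hj
      rw [← Real.dist_eq]
      refine (Metric.dist_le_diam_of_mem hb hyj (hpt j hne)).trans (hd.trans hKr.le)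
    have hr2 : 0 < r ^ (-((t + s') / 2)) := Real.rpow_pos_of_pos hr0 _
    have h4 : (Nc r A : ℝ) * QQ K c r ≤
        (max CA 0 * r ^ (-((t + s') / 2))) * (CQ * r ^ (-((s' - t) / 2))) := by
      apply mul_le_mul _ hQ hQQ0 (by positivity)
      exact hNA.trans (mul_le_mul_of_nonneg_right (le_max_left _ _) hr2.le)
    have h5 : r ^ (-((t + s') / 2)) * r ^ (-((s' - t) / 2)) = K ^ s' * ε ^ (-s') := by
      rw [← Real.rpow_add hr0, hr, Real.div_rpow hε.1.le hK0.le]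
      have : -((t + s') / 2) + -((s' - t) / 2) = -s' := by ring
      rw [this, Real.rpow_neg hK0.le s']
      field_simp
    calc (Nc ε B : ℝ) ≤ GB.card := by exact_mod_cast h3
      _ ≤ Nc r A * QQ K c r := h1
      _ ≤ (max CA 0 * r ^ (-((t + s') / 2))) * (CQ * r ^ (-((s' - t) / 2))) := h4
      _ = max CA 0 * CQ * (r ^ (-((t + s') / 2)) * r ^ (-((s' - t) / 2))) := by ring
      _ = max CA 0 * CQ * K ^ s' * ε ^ (-s') := by rw [h5]; ring

/-- good covers of a set of zero Hausdorff measure -/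
theorem exists_good_cover {A : Set ℝ} {s : ℝ≥0} (hs : dimH A < s) {δ : ℝ} (hδ : 0 < δ)
    {e : ℝ≥0∞} (he : 0 < e) (he' : e ≠ ⊤) :
    ∃ (r u : ℕ → ℝ), (∀ n, 0 < r n ∧ r n ≤ δ) ∧ (∀ x ∈ A, ∃ n, |x - u n| ≤ r n) ∧
      ∑' n, ENNReal.ofReal (r n) ^ (s : ℝ) ≤ e := by
  have hs0 : (0 : ℝ) < s := by
    have h1 : (0 : ℝ≥0∞) < s := lt_of_le_of_lt (zero_le) hs
    exact_mod_cast h1
  have hμ : μH[s] A = 0 := hausdorffMeasure_of_dimH_lt hs
  rw [Measure.hausdorffMeasure_apply] at hμ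
  have h1 : ⨅ (t : ℕ → Set ℝ) (_ : A ⊆ ⋃ n, t n) (_ : ∀ n, ediam (t n) ≤ ENNReal.ofReal δ),
      ∑' n, ⨆ _ : (t n).Nonempty, ediam (t n) ^ (s : ℝ) ≤ 0 := by
    rw [← hμ]
    exact le_iSup₂_of_le (f := fun (r : ℝ≥0∞) (_ : 0 < r) =>
        ⨅ (t : ℕ → Set ℝ) (_ : A ⊆ ⋃ n, t n) (_ : ∀ n, ediam (t n) ≤ r),
          ∑' n, ⨆ _ : (t n).Nonempty, ediam (t n) ^ (s : ℝ)) (ENNReal.ofReal δ)
      (ENNReal.ofReal_pos.2 hδ) le_rfl
  have he2 : 0 < e / 2 := ENNReal.half_pos he.ne'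
  have h2 := lt_of_le_of_lt h1 he2
  simp only [iInf_lt_iff] at h2
  obtain ⟨t, htA, htd, hsum⟩ := h2
  -- tiny radii
  have htiny : ∀ n : ℕ, ∃ d : ℝ, 0 < d ∧ d ≤ δ ∧ ENNReal.ofReal d ^ (s : ℝ) ≤ e / 2 * (1 / 2) ^ (n + 1) := by
    intro n
    set b : ℝ≥0∞ := e / 2 * (1 / 2) ^ (n + 1) with hb
    have hb0 : 0 < b := by
      refine ENNReal.mul_pos he2.ne' ?_
      exact (ENNReal.pow_pos (by simp) _).ne'
    have hbt : b ≠ ⊤ := by
      refine ENNReal.mul_ne_top (ENNReal.div_ne_top he' (by norm_num)) ?_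
      exact ENNReal.pow_ne_top (by simp)
    have hbr : 0 < b.toReal := ENNReal.toReal_pos hb0.ne' hbt
    refine ⟨min δ (b.toReal ^ (1 / (s : ℝ))), lt_min hδ (Real.rpow_pos_of_pos hbr _),
      min_le_left _ _, ?_⟩
    calc ENNReal.ofReal (min δ (b.toReal ^ (1 / (s : ℝ)))) ^ (s : ℝ)
        ≤ ENNReal.ofReal (b.toReal ^ (1 / (s : ℝ))) ^ (s : ℝ) :=
          ENNReal.rpow_le_rpow (ENNReal.ofReal_le_ofReal (min_le_right _ _)) hs0.le
      _ = b := by
          rw [ENNReal.ofReal_rpow_of_pos (Real.rpow_pos_of_pos hbr _), ← Real.rpow_mul hbr.le,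
            one_div, inv_mul_cancel₀ hs0.ne', Real.rpow_one, ENNReal.ofReal_toReal hbt]
  choose d hd0 hdδ hds using htiny
  have hcen : ∀ n, ∃ u : ℝ, (t n).Nonempty → u ∈ t n := by
    intro n
    by_cases hn : (t n).Nonempty
    · obtain ⟨u, hu⟩ := hn; exact ⟨u, fun _ => hu⟩
    · exact ⟨0, fun h => absurd h hn⟩
  choose u hu using hcen
  have hfin : ∀ n, ediam (t n) ≠ ⊤ := fun n => ne_top_of_le_ne_top ENNReal.ofReal_ne_top (htd n)
  refine ⟨fun n => max (ediam (t n)).toReal (d n), u, ?_, ?_, ?_⟩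
  · intro n
    refine ⟨lt_max_of_lt_right (hd0 n), max_le ?_ (hdδ n)⟩
    exact ENNReal.toReal_le_of_le_ofReal hδ.le (htd n)
  · intro x hx
    have := htA hx
    simp only [mem_iUnion] at this
    obtain ⟨n, hn⟩ := this
    refine ⟨n, le_max_of_le_left ?_⟩
    rw [← Real.dist_eq]
    have h3 : edist x (u n) ≤ ediam (t n) := Metric.edist_le_ediam_of_mem hn (hu n ⟨x, hn⟩)
    rw [edist_dist] at h3
    exact (ENNReal.ofReal_le_iff_le_toReal (hfin n)).1 h3
  · have hterm : ∀ n, ENNReal.ofReal (max (ediam (t n)).toReal (d n)) ^ (s : ℝ) ≤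
        (⨆ _ : (t n).Nonempty, ediam (t n) ^ (s : ℝ)) + e / 2 * (1 / 2) ^ (n + 1) := by
      intro n
      rcases max_cases (ediam (t n)).toReal (d n) with ⟨h, _⟩ | ⟨h, _⟩
      · rw [h, ENNReal.ofReal_toReal (hfin n)]
        by_cases hn : (t n).Nonempty
        · simp only [hn, iSup_pos]
          exact le_self_add
        · rw [not_nonempty_iff_eq_empty] at hn
          rw [hn]
          simp [ENNReal.zero_rpow_of_pos hs0]
      · rw [h]
        exact (hds n).trans le_add_self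
    calc ∑' n, ENNReal.ofReal (max (ediam (t n)).toReal (d n)) ^ (s : ℝ)
        ≤ ∑' n, ((⨆ _ : (t n).Nonempty, ediam (t n) ^ (s : ℝ)) + e / 2 * (1 / 2) ^ (n + 1)) :=
          ENNReal.tsum_le_tsum hterm
      _ = ∑' n, (⨆ _ : (t n).Nonempty, ediam (t n) ^ (s : ℝ)) +
            ∑' n, e / 2 * (1 / 2) ^ (n + 1) := ENNReal.tsum_add
      _ ≤ e / 2 + e / 2 := by
          refine add_le_add hsum.le ?_
          rw [ENNReal.tsum_mul_left]
          have h4 : ∑' n : ℕ, (1 / 2 : ℝ≥0∞) ^ (n + 1) = 1 := by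
            have h5 : (2⁻¹ : ℝ≥0∞) * 2 = 1 := ENNReal.inv_mul_cancel (by norm_num) (by norm_num)
            have h6 := ENNReal.tsum_geometric_add_one (2⁻¹ : ℝ≥0∞)
            simp only [one_div]
            rw [h6, ENNReal.one_sub_inv_two, inv_inv, h5]
          rw [h4, mul_one]
      _ = e := ENNReal.add_halves e

theorem dimH_part {A B : Set ℝ} {ι : Type} {J : ι → Set ℝ} {K c : ℝ}
    (hK : 1 ≤ K) (hc : 0 < c) (hc1 : c < 1) (x : ℝ → ℝ)
    (hx : ∀ y ∈ B, x y ∈ A) (h : CoverProp B J K c x) : dimH B ≤ dimH A := by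
  classical
  have hK0 : 0 < K := by linarith
  by_contra hlt
  rw [not_le] at hlt
  obtain ⟨s, hs1, hs2⟩ := ENNReal.lt_iff_exists_nnreal_btwn.1 hlt
  obtain ⟨s', hs'1, hs'2⟩ := ENNReal.lt_iff_exists_nnreal_btwn.1 hs2
  have hss : s < s' := by exact_mod_cast hs'1
  have hssR : (s : ℝ) < s' := by exact_mod_cast hss
  have hs0 : (0 : ℝ) < s := by
    have h1 : (0 : ℝ≥0∞) < s := lt_of_le_of_lt (zero_le) hs1
    exact_mod_cast h1
  obtain ⟨CQ, hCQ0, hCQ⟩ := QQ_le hK hc hc1 ((s' : ℝ) - s) (by linarith)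
  refine absurd ?_ (not_le.2 hs'2)
  apply dimH_le_of_hausdorffMeasure_ne_top
  have hμ : μH[s'] B ≤ 0 := by
    have hδ : ∀ k : ℕ, (0 : ℝ) < 1 / (K * (k + 2)) := fun k => by positivity
    have he : ∀ k : ℕ, (0 : ℝ≥0∞) < ENNReal.ofReal (1 / (k + 1)) := fun k =>
      ENNReal.ofReal_pos.2 (by positivity)
    have hcov := fun k : ℕ => exists_good_cover hs1 (hδ k) (he k) ENNReal.ofReal_ne_top
    choose r u hr hu hsum using hcov
    have hKr : ∀ k n, K * r k n ≤ 1 / (k + 2) := by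
      intro k n
      have := mul_le_mul_of_nonneg_left (hr k n).2 hK0.le
      refine this.trans (le_of_eq ?_)
      field_simp
    have hKr1 : ∀ k n, K * r k n < 1 := by
      intro k n
      refine (hKr k n).trans_lt ?_
      rw [div_lt_one (by positivity)]
      have : (0 : ℝ) ≤ k := by positivity
      linarith
    have hF := fun (k n : ℕ) => h (r k n) (hr k n).1 (hKr1 k n) (u k n)
    choose F hF1 hF2 hF3 using hF
    set C' : ℝ := CQ * K ^ (s' : ℝ) with hC'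
    have hC'0 : 0 < C' := by positivity
    have hdiam : ∀ k n, ∀ j ∈ F k n, ediam (J j) ≤ ENNReal.ofReal (K * r k n) := by
      intro k n j hj
      obtain ⟨hb, hd, _⟩ := hF2 k n j hj
      rw [← ENNReal.ofReal_toReal hb.ediam_ne_top]
      exact ENNReal.ofReal_le_ofReal hd
    have hmain := Measure.hausdorffMeasure_le_liminf_tsum (β := ℕ)
      (ι := fun k => Σ n : ℕ, {j // j ∈ F k n}) (s' : ℝ) B (l := atTop)
      (fun k => ENNReal.ofReal (1 / (k + 2))) (by
        rw [← ENNReal.ofReal_zero]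
        apply ENNReal.tendsto_ofReal
        have : Tendsto (fun k : ℕ => (k : ℝ) + 2) atTop atTop :=
          tendsto_atTop_add_const_right _ _ tendsto_natCast_atTop_atTop
        exact (tendsto_inv_atTop_zero.comp this).congr (fun k => by simp [one_div]))
      (fun k p => J p.2.1)
      (Eventually.of_forall fun k p => (hdiam k p.1 p.2.1 p.2.2).trans
        (ENNReal.ofReal_le_ofReal (hKr k p.1)))
      (Eventually.of_forall fun k y hy => by
        obtain ⟨n, hn⟩ := hu k (x y) (hx y hy)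
        obtain ⟨j, hj, hyj⟩ := hF3 k n y hy hn
        exact mem_iUnion.2 ⟨⟨n, ⟨j, hj⟩⟩, hyj⟩)
    refine hmain.trans ?_
    have hbound : ∀ k : ℕ, ∑' p : (Σ n : ℕ, {j // j ∈ F k n}), ediam (J p.2.1) ^ (s' : ℝ) ≤
        ENNReal.ofReal C' * ENNReal.ofReal (1 / (k + 1)) := by
      intro k
      rw [ENNReal.tsum_sigma']
      have hinner : ∀ n : ℕ, ∑' j : {j // j ∈ F k n}, ediam (J j.1) ^ (s' : ℝ) ≤
          ENNReal.ofReal C' * ENNReal.ofReal (r k n) ^ (s : ℝ) := by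
        intro n
        rw [tsum_fintype]
        have hrpos := (hr k n).1
        calc ∑ j : {j // j ∈ F k n}, ediam (J j.1) ^ (s' : ℝ)
            ≤ ∑ _j : {j // j ∈ F k n}, ENNReal.ofReal (K * r k n) ^ (s' : ℝ) :=
              Finset.sum_le_sum (fun j _ => ENNReal.rpow_le_rpow (hdiam k n j.1 j.2) (by positivity))
          _ = ((F k n).card : ℝ≥0∞) * ENNReal.ofReal (K * r k n) ^ (s' : ℝ) := by
              rw [Finset.sum_const, nsmul_eq_mul, Finset.card_univ, Fintype.card_coe]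
          _ ≤ ENNReal.ofReal (CQ * r k n ^ (-((s' : ℝ) - s))) *
                ENNReal.ofReal ((K * r k n) ^ (s' : ℝ)) := by
              rw [ENNReal.ofReal_rpow_of_pos (by positivity)]
              refine mul_le_mul_left ?_ _
              rw [← ENNReal.ofReal_natCast]
              exact ENNReal.ofReal_le_ofReal ((hF1 k n).trans (hCQ _ hrpos (hKr1 k n)))
          _ = ENNReal.ofReal C' * ENNReal.ofReal (r k n) ^ (s : ℝ) := by
              rw [ENNReal.ofReal_rpow_of_pos hrpos, ← ENNReal.ofReal_mul (by positivity),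
                ← ENNReal.ofReal_mul hC'0.le]
              congr 1
              rw [Real.mul_rpow hK0.le hrpos.le, hC']
              have : r k n ^ (s : ℝ) = r k n ^ (-((s' : ℝ) - s)) * r k n ^ (s' : ℝ) := by
                rw [← Real.rpow_add hrpos]; congr 1; ring
              rw [this]; ring
      calc ∑' n : ℕ, ∑' j : {j // j ∈ F k n}, ediam (J j.1) ^ (s' : ℝ)
          ≤ ∑' n : ℕ, ENNReal.ofReal C' * ENNReal.ofReal (r k n) ^ (s : ℝ) :=
            ENNReal.tsum_le_tsum hinner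
        _ = ENNReal.ofReal C' * ∑' n : ℕ, ENNReal.ofReal (r k n) ^ (s : ℝ) := ENNReal.tsum_mul_left
        _ ≤ _ := mul_le_mul_right (hsum k) _
    have htend : Tendsto (fun k : ℕ => ENNReal.ofReal C' * ENNReal.ofReal (1 / ((k : ℝ) + 1)))
        atTop (𝓝 0) := by
      have h1 : Tendsto (fun k : ℕ => ENNReal.ofReal (1 / ((k : ℝ) + 1))) atTop (𝓝 0) := by
        rw [← ENNReal.ofReal_zero]
        exact ENNReal.tendsto_ofReal tendsto_one_div_add_atTop_nhds_zero_nat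
      have := ENNReal.Tendsto.const_mul (a := ENNReal.ofReal C') h1 (Or.inr ENNReal.ofReal_ne_top)
      simpa using this
    calc liminf (fun k : ℕ => ∑' p : (Σ n : ℕ, {j // j ∈ F k n}), ediam (J p.2.1) ^ (s' : ℝ)) atTop
        ≤ liminf (fun k : ℕ => ENNReal.ofReal C' * ENNReal.ofReal (1 / ((k : ℝ) + 1))) atTop :=
          liminf_le_liminf (Eventually.of_forall hbound)
      _ = 0 := htend.liminf_eq
  exact ne_top_of_le_ne_top ENNReal.zero_ne_top hμ

theorem transfer : T_TRANSFER := by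
  intro A B ι I J cls K c hA hB hAne hK hc hc1 hI hdisj hJ hy
  rcases B.eq_empty_or_nonempty with rfl | ⟨y0, hy0⟩
  · exact ⟨by rw [dimH_empty]; exact zero_le, ubd_empty_le hA hAne⟩
  have : Nonempty ι := by
    obtain ⟨_, i, _⟩ := hy y0 hy0
    exact ⟨i 0⟩
  choose! x i hxA hx0 hxi using hy
  have hcov : CoverProp B J K c x := core (A := A) hK hc hc1 hI hdisj hJ x i
    (fun y hyB => ⟨hxA y hyB, hx0 y hyB, hxi y hyB⟩)
  exact ⟨dimH_part hK hc hc1 x hxA hcov, ubd_part hA hB hAne hK hc hc1 x hxA hcov⟩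

end Pool.Agent.H81.ST
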