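import Pool.Agent.H31.ST.Targets

/-! ZERO1 for MP_0b97f5_mp: a zero-one law for the Gauss map (without ergodicity).  helper81 -/

open Set Filter Topology Metric MeasureTheory
open scoped ENNReal NNReal

noncomputable section

namespace Pool.Agent.H81.ST

open H31.ST

theorem gauss_branch {a : ℕ} {y : ℝ} (hy : y ∈ Ioo (0 : ℝ) 1) : gauss (1 / ((a : ℝ) + y)) = y := by
  unfold gauss
  rw [one_div, inv_inv, Int.fract_natCast_add]
  exact Int.fract_eq_self.2 ⟨hy.1.le, hy.2⟩

theorem branch_mem {a : ℕ} (ha : 1 ≤ a) {y : ℝ} (hy : y ∈ Ioo (0 : ℝ) 1) :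
    1 / ((a : ℝ) + y) ∈ Ioo (0 : ℝ) 1 := by
  have h1 : (1 : ℝ) ≤ a := by exact_mod_cast ha
  have h2 : 0 < (a : ℝ) + y := by linarith [hy.1]
  exact ⟨by positivity, by rw [div_lt_one h2]; linarith [hy.1]⟩

theorem branch_irr {a : ℕ} {y : ℝ} (hy : Irrational y) : Irrational (1 / ((a : ℝ) + y)) := by
  rw [one_div]
  exact (hy.natCast_add a).inv

theorem gauss_irr {x : ℝ} (hx : Irrational x) : Irrational (gauss x) ∧ gauss x ∈ Ioo (0 : ℝ) 1 := by
  have h1 : Irrational (gauss x) := by
    unfold gauss Int.fract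
    exact hx.inv.sub_intCast _
  refine ⟨h1, ?_, Int.fract_lt_one _⟩
  exact lt_of_le_of_ne (Int.fract_nonneg _) (fun h => h1.ne_zero h.symm)

theorem decomp {x : ℝ} (hx : x ∈ Ioo (0 : ℝ) 1) : ∃ a : ℕ, 1 ≤ a ∧ x = 1 / ((a : ℝ) + gauss x) := by
  refine ⟨⌊x⁻¹⌋₊, ?_, ?_⟩
  · have : (1 : ℝ) ≤ x⁻¹ := by
      rw [one_le_inv₀ hx.1]; exact hx.2.le
    exact Nat.le_floor (by exact_mod_cast this)
  · have h0 : 0 ≤ x⁻¹ := by have := hx.1; positivity
    have h1 : ((⌊x⁻¹⌋₊ : ℕ) : ℝ) = ((⌊x⁻¹⌋ : ℤ) : ℝ) := by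
      rw [← Int.natCast_floor_eq_floor h0]; simp
    rw [h1, gauss, Int.floor_add_fract, one_div, inv_inv]

/-- the inverse branches -/
theorem branch (A : Set ℝ) (hA1 : A ⊆ Ioo 0 1)
    (hA : ∀ α ∈ Ioo (0 : ℝ) 1, Irrational α → gauss (gauss α) ∈ A → α ∈ A) (n : ℕ) :
    ∀ x ∈ Ioo (0 : ℝ) 1, Irrational x → ∃ P P' Q Q' y₀ : ℝ, 0 ≤ Q' ∧ Q' ≤ Q ∧ 2 ^ n ≤ Q ∧
      P' * Q - P * Q' = 1 ∧ y₀ ∈ Ioo (0 : ℝ) 1 ∧ Irrational y₀ ∧
      x = (P + y₀ * P') / (Q + y₀ * Q') ∧
      ∀ y ∈ A, Irrational y → (P + y * P') / (Q + y * Q') ∈ A ∧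
        Irrational ((P + y * P') / (Q + y * Q')) := by
  intro x hx hxi
  induction n with
  | zero => exact ⟨0, 1, 1, 0, x, le_rfl, zero_le_one, by norm_num, by norm_num, hx, hxi, by simp,
      fun y hy hyi => by simpa using ⟨hy, hyi⟩⟩
  | succ n ih =>
    obtain ⟨P, P', Q, Q', y0, hQ'0, hQ'Q, hQ, hdet, hy0, hy0i, hxy, hbr⟩ := ih
    obtain ⟨a, ha, hya⟩ := decomp hy0
    obtain ⟨hgi, hg⟩ := gauss_irr hy0i
    obtain ⟨b, hb, hyb⟩ := decomp hg
    obtain ⟨hggi, hgg⟩ := gauss_irr hgi
    set y1 := gauss (gauss y0) with hy1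
    have ha1 : (1 : ℝ) ≤ a := by exact_mod_cast ha
    have hb1 : (1 : ℝ) ≤ b := by exact_mod_cast hb
    have hQpos : 0 < Q := lt_of_lt_of_le (by positivity) hQ
    -- the composition formula
    have hcomp : ∀ y : ℝ, 0 < y → (P + (1 / (a + 1 / (b + y))) * P') /
        (Q + (1 / (a + 1 / (b + y))) * Q') =
        ((P * (a * b + 1) + P' * b) + y * (P * a + P')) /
          ((Q * (a * b + 1) + Q' * b) + y * (Q * a + Q')) := by
      intro y hy
      have h1 : 0 < b + y := by linarith
      have h2 : 0 < a * (b + y) + 1 := by positivity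
      have h3 : 1 / (a + 1 / (b + y)) = (b + y) / (a * (b + y) + 1) := by
        field_simp
      rw [h3]
      have h4 : 0 < Q + (b + y) / (a * (b + y) + 1) * Q' := by positivity
      have h5 : 0 < (Q * (a * b + 1) + Q' * b) + y * (Q * a + Q') := by positivity
      rw [div_eq_div_iff h4.ne' h5.ne']
      field_simp
      ring
    refine ⟨P * (a * b + 1) + P' * b, P * a + P', Q * (a * b + 1) + Q' * b, Q * a + Q', y1,
      by positivity, ?_, ?_, ?_, hgg, hggi, ?_, ?_⟩
    · have h1 : Q * a ≤ Q * (a * b) := by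
        apply mul_le_mul_of_nonneg_left _ hQpos.le
        nlinarith
      have h2 : Q' ≤ Q' * b := by nlinarith
      nlinarith
    · have h1 : Q ≤ Q * (a * b) := by nlinarith [mul_le_mul ha1 hb1 zero_le_one (by linarith)]
      have h2 : 0 ≤ Q' * b := by positivity
      rw [pow_succ]
      nlinarith
    · linear_combination hdet
    · rw [hxy, ← hcomp y1 hgg.1]
      have : y0 = 1 / (a + 1 / (b + y1)) := by
        rw [hya]; rw [hyb] 
      rw [← this]
    · intro y hy hyi
      have hy01 := hA1 hy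
      rw [← hcomp y hy01.1]
      have h1 := branch_mem hb hy01
      have h2 := branch_mem ha h1
      have h3 : Irrational (1 / ((a : ℝ) + 1 / ((b : ℝ) + y))) := branch_irr (branch_irr hyi)
      refine hbr _ (hA _ h2 h3 ?_) h3
      rw [gauss_branch h1, gauss_branch hy01]
      exact hy

/-- bounded distortion: the set `A` has a definite proportion in every even cylinder -/
theorem cyl {A : Set ℝ} (hA1 : A ⊆ Ioo 0 1) {P P' Q Q' : ℝ} (hQ'0 : 0 ≤ Q')
    (_hQQ : Q' ≤ Q) (hQ : 0 < Q) (hdet : P' * Q - P * Q' = 1)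
    (hbr : ∀ y ∈ A, Irrational y → (P + y * P') / (Q + y * Q') ∈ A) :
    volume A ≤ ENNReal.ofReal ((Q + Q') ^ 2) *
      volume (A ∩ Icc (P / Q) ((P + P') / (Q + Q'))) := by
  set f : ℝ → ℝ := fun y => (P + y * P') / (Q + y * Q') with hf
  set h : ℝ → ℝ := fun u => (u * Q - P) / (P' - u * Q') with hh
  set A' : Set ℝ := A ∩ {y | Irrational y} with hA'
  have hden : ∀ y ∈ A', 0 < Q + y * Q' := fun y hy => by
    have := (hA1 hy.1).1; positivity
  have hden2 : ∀ y ∈ A', Q + y * Q' ≤ Q + Q' := fun y hy => by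
    have := (hA1 hy.1).2.le; nlinarith
  have hfh : ∀ y ∈ A', h (f y) = y := by
    intro y hy
    have hd := hden y hy
    have h1 : P' - f y * Q' = 1 / (Q + y * Q') := by
      rw [hf]; field_simp; linear_combination hdet
    have h2 : f y * Q - P = y / (Q + y * Q') := by
      rw [hf]; field_simp; linear_combination y * hdet
    rw [hh]
    simp only
    rw [h1, h2]
    field_simp
  have himg : h '' (f '' A') = A' := by
    rw [image_image]
    ext y
    constructor
    · rintro ⟨z, hz, rfl⟩
      show h (f z) ∈ A'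
      rw [hfh z hz]; exact hz
    · intro hy
      exact ⟨y, hy, hfh y hy⟩
  have hlip : LipschitzOnWith (Real.toNNReal ((Q + Q') ^ 2)) h (f '' A') := by
    apply LipschitzOnWith.of_dist_le_mul
    rintro _ ⟨y, hy, rfl⟩ _ ⟨z, hz, rfl⟩
    rw [hfh y hy, hfh z hz, Real.coe_toNNReal _ (by positivity), Real.dist_eq, Real.dist_eq]
    have hdy := hden y hy
    have hdz := hden z hz
    have h1 : f y - f z = (y - z) / ((Q + y * Q') * (Q + z * Q')) := by
      rw [hf]; simp only; rw [div_sub_div _ _ hdy.ne' hdz.ne']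
      congr 1
      linear_combination (y - z) * hdet
    rw [h1, abs_div, abs_of_pos (mul_pos hdy hdz)]
    have h2 : (Q + y * Q') * (Q + z * Q') ≤ (Q + Q') ^ 2 := by
      rw [sq]
      exact mul_le_mul (hden2 y hy) (hden2 z hz) hdz.le (by positivity)
    have h3 := abs_nonneg (y - z)
    rw [mul_div_assoc', le_div_iff₀ (mul_pos hdy hdz), mul_comm]
    exact mul_le_mul_of_nonneg_right h2 h3
  have hsub : f '' A' ⊆ A ∩ Icc (P / Q) ((P + P') / (Q + Q')) := by
    rintro _ ⟨y, hy, rfl⟩
    have hdy := hden y hy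
    have hy0 := (hA1 hy.1).1
    have hy1 := (hA1 hy.1).2
    refine ⟨hbr y hy.1 hy.2, ?_, ?_⟩
    · rw [hf]; simp only
      rw [div_le_div_iff₀ hQ hdy]
      nlinarith
    · rw [hf]; simp only
      rw [div_le_div_iff₀ hdy (by positivity)]
      nlinarith
  have hAA' : volume A = volume A' := by
    apply measure_congr
    have : ∀ᵐ y : ℝ ∂volume, Irrational y := by
      have h0 : volume (range ((↑) : ℚ → ℝ)) = 0 := (countable_range _).measure_zero _
      rw [ae_iff]
      convert h0 using 2
      ext y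
      simp [Irrational]
    filter_upwards [this] with y hy
    apply propext
    constructor
    · intro hyA; exact ⟨hyA, hy⟩
    · intro hyA; exact hyA.1
  have hH := hlip.hausdorffMeasure_image_le (d := 1) zero_le_one
  rw [himg, hausdorffMeasure_real, ENNReal.rpow_one] at hH
  rw [hAA']
  exact hH.trans (mul_le_mul_right (measure_mono hsub) _)

theorem zero1 : T_ZERO1 := by
  intro A hA1 hAm hA
  by_contra hcon
  rw [not_or] at hcon
  obtain ⟨hA0, hS0⟩ := hcon
  set S : Set ℝ := Ioo 0 1 \ A with hS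
  have hae := IsUnifLocDoublingMeasure.ae_tendsto_measure_inter_div (volume : Measure ℝ) S 1
  have hirr : ∀ᵐ y : ℝ ∂(volume.restrict S), Irrational y := by
    apply ae_restrict_of_ae
    have h0 : volume (range ((↑) : ℚ → ℝ)) = 0 := (countable_range _).measure_zero _
    rw [ae_iff]
    convert h0 using 2
    ext y
    simp [Irrational]
  have hmem : ∀ᵐ y : ℝ ∂(volume.restrict S), y ∈ S :=
    ae_restrict_mem (measurableSet_Ioo.diff hAm)
  have hvA : volume A ≤ 1 := by
    calc volume A ≤ volume (Ioo (0 : ℝ) 1) := measure_mono hA1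
      _ = 1 := by rw [Real.volume_Ioo]; simp
  have hfalse : ∀ᵐ y : ℝ ∂(volume.restrict S), False := by
    filter_upwards [hae, hirr, hmem] with x hx hxi hxS
    have hx01 : x ∈ Ioo (0 : ℝ) 1 := hxS.1
    have hb := fun n => branch A hA1 hA n x hx01 hxi
    choose P P' Q Q' y0 hQ'0 hQ'Q hQ2 hdet hy0 hy0i hxy hbr using hb
    have hQpos : ∀ n, 0 < Q n := fun n => lt_of_lt_of_le (by positivity) (hQ2 n)
    have hlen : ∀ n, (P n + P' n) / (Q n + Q' n) - P n / Q n = 1 / (Q n * (Q n + Q' n)) := by
      intro n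
      have h1 := hQpos n
      have h2 : 0 < Q n + Q' n := by linarith [hQ'0 n]
      rw [div_sub_div _ _ h2.ne' h1.ne', div_eq_div_iff (by positivity) (by positivity)]
      linear_combination (Q n * (Q n + Q' n)) * hdet n
    set w : ℕ → ℝ := fun n => ((P n + P' n) / (Q n + Q' n) + P n / Q n) / 2 with hw
    set δ : ℕ → ℝ := fun n => 1 / (Q n * (Q n + Q' n)) / 2 with hδ
    have hδpos : ∀ n, 0 < δ n := fun n => by
      have h1 := hQpos n
      have h2 : 0 < Q n + Q' n := by linarith [hQ'0 n]
      rw [hδ]; positivity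
    have hball : ∀ n, closedBall (w n) (δ n) = Icc (P n / Q n) ((P n + P' n) / (Q n + Q' n)) := by
      intro n
      rw [Real.closedBall_eq_Icc]
      have := hlen n
      congr 1
      · simp only [hw, hδ]; linarith
      · simp only [hw, hδ]; linarith
    have hδlim : Tendsto δ atTop (𝓝[>] 0) := by
      rw [tendsto_nhdsWithin_iff]
      refine ⟨?_, Eventually.of_forall hδpos⟩
      refine squeeze_zero (fun n => (hδpos n).le) (g := fun n => (1 / 2 : ℝ) ^ n) ?_
        (tendsto_pow_atTop_nhds_zero_of_lt_one (by norm_num) (by norm_num))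
      intro n
      have h1 := hQpos n
      have h2 := hQ2 n
      have h3 : (1 : ℝ) ≤ 2 ^ n := one_le_pow₀ (by norm_num)
      have h4 : (2 : ℝ) ^ n ≤ Q n * (Q n + Q' n) := by nlinarith [hQ'0 n]
      simp only [hδ]
      rw [one_div_pow, div_div]
      apply one_div_le_one_div_of_le (by positivity)
      nlinarith
    have hxmem : ∀ᶠ n in atTop, x ∈ closedBall (w n) (1 * δ n) := by
      refine Eventually.of_forall fun n => ?_
      rw [one_mul, hball n, hxy n]
      have hd : 0 < Q n + y0 n * Q' n := by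
        have := (hy0 n).1; have := hQ'0 n; have := hQpos n; positivity
      have h5 : 0 < Q n + Q' n := by linarith [hQ'0 n, hQpos n]
      constructor
      · rw [div_le_div_iff₀ (hQpos n) hd]
        nlinarith [hdet n, (hy0 n).1]
      · rw [div_le_div_iff₀ hd h5]
        nlinarith [hdet n, (hy0 n).2]
    have hlim := hx w δ hδlim hxmem
    have hratio : ∀ n, volume (S ∩ closedBall (w n) (δ n)) / volume (closedBall (w n) (δ n)) ≤
        1 - volume A / 2 := by
      intro n
      have h1 := hQpos n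
      have h2 : 0 < Q n + Q' n := by linarith [hQ'0 n]
      have hvol : volume (closedBall (w n) (δ n)) = ENNReal.ofReal (1 / (Q n * (Q n + Q' n))) := by
        rw [hball n, Real.volume_Icc, hlen n]
      have hcyl := cyl hA1 (hQ'0 n) (hQ'Q n) h1 (hdet n) (fun y hy hyi => (hbr n y hy hyi).1)
      rw [← hball n] at hcyl
      set B := closedBall (w n) (δ n) with hB
      have hvB0 : volume B ≠ 0 := by
        rw [hvol]; exact (ENNReal.ofReal_pos.2 (by positivity)).ne'
      have hvBt : volume B ≠ ⊤ := by rw [hvol]; exact ENNReal.ofReal_ne_top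
      -- proportion of A
      have hprop : volume B * (volume A / 2) ≤ volume (A ∩ B) := by
        calc volume B * (volume A / 2)
            ≤ volume B * ((ENNReal.ofReal ((Q n + Q' n) ^ 2) * volume (A ∩ B)) / 2) :=
              mul_le_mul_right (ENNReal.div_le_div_right hcyl 2) _
          _ = (volume B * ENNReal.ofReal ((Q n + Q' n) ^ 2) / 2) * volume (A ∩ B) := by
              rw [ENNReal.mul_div_right_comm, ← mul_assoc, ENNReal.mul_div_right_comm,
                mul_div_assoc', ENNReal.mul_div_right_comm]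
          _ ≤ 1 * volume (A ∩ B) := by
              refine mul_le_mul_left ?_ _
              rw [hvol, ← ENNReal.ofReal_mul (by positivity)]
              have : (2 : ℝ≥0∞) = ENNReal.ofReal 2 := by norm_num
              rw [this, ← ENNReal.ofReal_div_of_pos (by norm_num), ← ENNReal.ofReal_one]
              apply ENNReal.ofReal_le_ofReal
              rw [div_le_one (by norm_num), one_div, inv_mul_le_iff₀ (by positivity)]
              nlinarith [hQ'Q n, mul_nonneg h1.le (sub_nonneg.2 (hQ'Q n)),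
                mul_nonneg (hQ'0 n) (sub_nonneg.2 (hQ'Q n))]
          _ = volume (A ∩ B) := one_mul _
      have hadd : volume (S ∩ B) + volume (A ∩ B) ≤ volume B := by
        rw [← measure_union]
        · apply measure_mono
          exact union_subset inter_subset_right inter_subset_right
        · rw [Set.disjoint_left]
          rintro y ⟨hy1, _⟩ ⟨hy2, _⟩
          exact hy1.2 hy2
        · exact hAm.inter measurableSet_closedBall
      have hfin : volume (S ∩ B) ≤ volume B * (1 - volume A / 2) := by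
        rw [ENNReal.mul_sub (fun _ _ => hvBt), mul_one]
        apply ENNReal.le_sub_of_add_le_right
          (ENNReal.mul_ne_top hvBt (ENNReal.div_ne_top (ne_top_of_le_ne_top ENNReal.one_ne_top hvA)
            (by norm_num)))
        exact (add_le_add_right hprop _).trans hadd
      rw [ENNReal.div_le_iff_le_mul (Or.inl hvB0) (Or.inl hvBt), mul_comm]
      exact hfin
    have hle : (1 : ℝ≥0∞) ≤ 1 - volume A / 2 :=
      le_of_tendsto hlim (Eventually.of_forall hratio)
    have hlt : 1 - volume A / 2 < (1 : ℝ≥0∞) := by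
      apply ENNReal.sub_lt_self ENNReal.one_ne_top one_ne_zero
      exact (ENNReal.half_pos hA0).ne'
    exact absurd hle (not_le.2 hlt)
  apply hS0
  have : volume.restrict S = 0 := by
    rw [← ae_eq_bot]
    exact Filter.eventually_false_iff_eq_bot.1 hfalse
  rwa [Measure.restrict_eq_zero] at this

end Pool.Agent.H81.ST
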