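import Pool.Agent.H81.ST.Transfer2

/-! MEASD for MP_0b97f5_mp: abstract part (measurability of the dimensions of a family of compact
sets).  helper81 -/

open Set Filter Topology Metric MeasureTheory
open scoped ENNReal NNReal

noncomputable section

namespace Pool.Agent.H81.ST

open H31.ST

/-- finite cover by open intervals with rational end points and small total length -/
def SmallCov (K : Set ℝ) (s : ℝ≥0) (F : Finset (ℚ × ℚ)) (e : ℝ≥0∞) : Prop :=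
  ∑ p ∈ F, ENNReal.ofReal ((p.2 : ℝ) - p.1) ^ (s : ℝ) ≤ e ∧
    K ⊆ ⋃ p ∈ F, Ioo ((p.1 : ℝ)) ((p.2 : ℝ))

theorem hausdorff_zero_of_smallCov {K : Set ℝ} {s : ℝ≥0} (hs : 0 < s)
    (h : ∀ m : ℕ, ∃ F : Finset (ℚ × ℚ), SmallCov K s F (ENNReal.ofReal (1 / (m + 1)))) :
    μH[s] K = 0 := by
  have hs0 : (0 : ℝ) < s := by exact_mod_cast hs
  choose F hF1 hF2 using h
  have hdiam : ∀ m : ℕ, ∀ p ∈ F m, ENNReal.ofReal ((p.2 : ℝ) - p.1) ≤
      ENNReal.ofReal (1 / (m + 1)) ^ (1 / (s : ℝ)) := by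
    intro m p hp
    have h1 : ENNReal.ofReal ((p.2 : ℝ) - p.1) ^ (s : ℝ) ≤ ENNReal.ofReal (1 / (m + 1)) :=
      le_trans (Finset.single_le_sum (f := fun p : ℚ × ℚ => ENNReal.ofReal ((p.2 : ℝ) - p.1) ^ (s : ℝ))
        (fun _ _ => zero_le) hp) (hF1 m)
    have h2 := ENNReal.rpow_le_rpow h1 (show 0 ≤ 1 / (s : ℝ) by positivity)
    rwa [← ENNReal.rpow_mul, mul_one_div_cancel hs0.ne', ENNReal.rpow_one] at h2
  have hmain := Measure.hausdorffMeasure_le_liminf_sum (β := ℕ)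
    (ι := fun m => {p // p ∈ F m}) (s : ℝ) K (l := atTop)
    (fun m => ENNReal.ofReal (1 / (m + 1)) ^ (1 / (s : ℝ))) (by
      have h1 : Tendsto (fun k : ℕ => ENNReal.ofReal (1 / ((k : ℝ) + 1))) atTop (𝓝 0) := by
        rw [← ENNReal.ofReal_zero]
        exact ENNReal.tendsto_ofReal tendsto_one_div_add_atTop_nhds_zero_nat
      have h2 := (ENNReal.continuous_rpow_const (y := 1 / (s : ℝ))).continuousAt.tendsto.comp h1
      rw [ENNReal.zero_rpow_of_pos (by positivity)] at h2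
      exact h2)
    (fun m p => Ioo ((p.1.1 : ℝ)) ((p.1.2 : ℝ)))
    (Eventually.of_forall fun m p => by
      rw [Real.ediam_Ioo]
      exact hdiam m p.1 p.2)
    (Eventually.of_forall fun m x hx => by
      have := hF2 m hx
      simp only [mem_iUnion] at this ⊢
      obtain ⟨p, hp, hx⟩ := this
      exact ⟨⟨p, hp⟩, hx⟩)
  have hle : μH[s] K ≤ 0 := by
    refine hmain.trans ?_
    have hbound : ∀ m : ℕ, ∑ p : {p // p ∈ F m}, ediam (Ioo ((p.1.1 : ℝ)) ((p.1.2 : ℝ))) ^ (s : ℝ) ≤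
        ENNReal.ofReal (1 / (m + 1)) := by
      intro m
      refine le_trans (le_of_eq ?_) (hF1 m)
      rw [← Finset.sum_coe_sort (F m)]
      refine Finset.sum_congr rfl (fun p _ => ?_)
      rw [Real.ediam_Ioo]
    have htend : Tendsto (fun k : ℕ => ENNReal.ofReal (1 / ((k : ℝ) + 1))) atTop (𝓝 0) := by
      rw [← ENNReal.ofReal_zero]
      exact ENNReal.tendsto_ofReal tendsto_one_div_add_atTop_nhds_zero_nat
    calc liminf (fun m : ℕ => ∑ p : {p // p ∈ F m},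
            ediam (Ioo ((p.1.1 : ℝ)) ((p.1.2 : ℝ))) ^ (s : ℝ)) atTop
        ≤ liminf (fun k : ℕ => ENNReal.ofReal (1 / ((k : ℝ) + 1))) atTop :=
          liminf_le_liminf (Eventually.of_forall hbound)
      _ = 0 := htend.liminf_eq
  exact le_antisymm hle zero_le

theorem smallCov_of_dimH_lt {K : Set ℝ} (hK : IsCompact K) {s : ℝ≥0} (hs : dimH K < s)
    (m : ℕ) : ∃ F : Finset (ℚ × ℚ), SmallCov K s F (ENNReal.ofReal (1 / (m + 1))) := by
  have hs0 : (0 : ℝ) < s := by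
    have h1 : (0 : ℝ≥0∞) < s := lt_of_le_of_lt (zero_le) hs
    exact_mod_cast h1
  set e : ℝ≥0∞ := ENNReal.ofReal (1 / (m + 1)) with he
  have he0 : 0 < e := ENNReal.ofReal_pos.2 (by positivity)
  have h4 : (4 : ℝ≥0∞) ^ (s : ℝ) ≠ ⊤ := ENNReal.rpow_ne_top_of_nonneg hs0.le (by norm_num)
  have h4' : (4 : ℝ≥0∞) ^ (s : ℝ) ≠ 0 := by
    simp [ENNReal.rpow_eq_zero_iff]
  obtain ⟨r, u, hr, hcov, hsum⟩ := exists_good_cover hs one_pos
    (e := e / (4 : ℝ≥0∞) ^ (s : ℝ)) (ENNReal.div_pos he0.ne' h4)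
    (ENNReal.div_ne_top ENNReal.ofReal_ne_top h4')
  have hp : ∀ n, ∃ p q : ℚ, u n - 2 * r n < p ∧ (p : ℝ) < u n - r n ∧ u n + r n < q ∧
      (q : ℝ) < u n + 2 * r n := by
    intro n
    have hrn := (hr n).1
    obtain ⟨p, hp1, hp2⟩ := exists_rat_btwn (show u n - 2 * r n < u n - r n by linarith)
    obtain ⟨q, hq1, hq2⟩ := exists_rat_btwn (show u n + r n < u n + 2 * r n by linarith)
    exact ⟨p, q, hp1, hp2, hq1, hq2⟩
  choose p q hp1 hp2 hq1 hq2 using hp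
  obtain ⟨T, hT⟩ := hK.elim_finite_subcover (fun n => Ioo ((p n : ℝ)) ((q n : ℝ)))
    (fun n => isOpen_Ioo) (by
      intro x hx
      obtain ⟨n, hn⟩ := hcov x hx
      rw [abs_le] at hn
      exact mem_iUnion.2 ⟨n, by linarith [hp2 n], by linarith [hq1 n]⟩)
  classical
  refine ⟨T.image (fun n => (p n, q n)), ?_, ?_⟩
  · calc ∑ x ∈ T.image (fun n => (p n, q n)), ENNReal.ofReal ((x.2 : ℝ) - x.1) ^ (s : ℝ)
        ≤ ∑ n ∈ T, ENNReal.ofReal ((q n : ℝ) - p n) ^ (s : ℝ) := by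
          exact Finset.sum_image_le_of_nonneg (fun _ _ => zero_le)
      _ ≤ ∑ n ∈ T, (4 : ℝ≥0∞) ^ (s : ℝ) * ENNReal.ofReal (r n) ^ (s : ℝ) := by
          refine Finset.sum_le_sum (fun n _ => ?_)
          rw [← ENNReal.mul_rpow_of_nonneg _ _ hs0.le]
          refine ENNReal.rpow_le_rpow ?_ hs0.le
          have : (4 : ℝ≥0∞) = ENNReal.ofReal 4 := by norm_num
          rw [this, ← ENNReal.ofReal_mul (by norm_num)]
          refine ENNReal.ofReal_le_ofReal ?_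
          linarith [hp1 n, hq2 n]
      _ ≤ ∑' n, (4 : ℝ≥0∞) ^ (s : ℝ) * ENNReal.ofReal (r n) ^ (s : ℝ) :=
          ENNReal.sum_le_tsum T
      _ = (4 : ℝ≥0∞) ^ (s : ℝ) * ∑' n, ENNReal.ofReal (r n) ^ (s : ℝ) := ENNReal.tsum_mul_left
      _ ≤ (4 : ℝ≥0∞) ^ (s : ℝ) * (e / (4 : ℝ≥0∞) ^ (s : ℝ)) := mul_le_mul_right hsum _
      _ = e := ENNReal.mul_div_cancel h4' h4
  · intro x hx
    have := hT hx
    simp only [mem_iUnion] at this ⊢
    obtain ⟨n, hn, hx⟩ := this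
    exact ⟨(p n, q n), Finset.mem_image_of_mem _ hn, hx⟩

theorem dimH_lt_iff {K : Set ℝ} (hK : IsCompact K) (t : ℝ≥0∞) :
    dimH K < t ↔ ∃ s : {s : ℚ // (0 : ℚ) < s}, (ENNReal.ofReal (s.1 : ℝ)) < t ∧
      ∀ m : ℕ, ∃ F : Finset (ℚ × ℚ),
        SmallCov K (Real.toNNReal (s.1 : ℝ)) F (ENNReal.ofReal (1 / (m + 1))) := by
  constructor
  · intro h
    obtain ⟨s, hs1, hs2⟩ := ENNReal.lt_iff_exists_rat_btwn.1 h
    obtain ⟨hs2, hs3⟩ := hs2
    have hs0 : (0 : ℝ) < s := by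
      have h1 : (0 : ℝ≥0∞) < (Real.toNNReal (s : ℝ) : ℝ≥0∞) := lt_of_le_of_lt zero_le hs2
      have h2 : (0 : ℝ≥0) < Real.toNNReal (s : ℝ) := by exact_mod_cast h1
      exact Real.toNNReal_pos.1 h2
    exact ⟨⟨s, by exact_mod_cast hs0⟩, hs3, fun m => smallCov_of_dimH_lt hK hs2 m⟩
  · rintro ⟨⟨s, hs0⟩, hs1, hs2⟩
    have hs0' : (0 : ℝ) < s := by exact_mod_cast hs0
    have h0 := hausdorff_zero_of_smallCov (Real.toNNReal_pos.2 hs0') hs2
    have h1 : dimH K ≤ (Real.toNNReal (s : ℝ) : ℝ≥0∞) :=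
      dimH_le_of_hausdorffMeasure_ne_top (by rw [h0]; exact ENNReal.zero_ne_top)
    exact lt_of_le_of_lt h1 hs1

/-- cover by balls of radius `ε` with rational centres -/
def RatCov (K : Set ℝ) (ε : ℚ) (F : Finset ℚ) : Prop :=
  K ⊆ ⋃ c ∈ F, Ioo ((c : ℝ) - ε) ((c : ℝ) + ε)

theorem ubd_le_iff {K : Set ℝ} (hK : IsCompact K) (hne : K.Nonempty) (s : ℝ) :
    ubd K ≤ s ↔ ∀ s' : {s' : ℚ // s < s'}, ∃ C : ℕ, ∀ ε : {ε : ℚ // 0 < ε ∧ ε < 1},
      ∃ F : Finset ℚ, (F.card : ℝ) ≤ C * ((ε.1 : ℚ) : ℝ) ^ (-((s'.1 : ℚ) : ℝ)) ∧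
        RatCov K ε.1 F := by
  classical
  rw [ubd_thm K hK hne s]
  constructor
  · rintro h ⟨s', hs'⟩
    obtain ⟨C, hC⟩ := h s' hs'
    refine ⟨⌈max C 0 * (2 : ℝ) ^ ((s' : ℚ) : ℝ)⌉₊, ?_⟩
    rintro ⟨ε, hε0, hε1⟩
    have hε0' : (0 : ℝ) < ε := by exact_mod_cast hε0
    have hε1' : (ε : ℝ) < 1 := by exact_mod_cast hε1
    obtain ⟨G, hG, hGc⟩ := exists_cover hK (show (0 : ℝ) < ε / 2 by positivity)
    have hq : ∀ c : ℝ, ∃ q : ℚ, |c - q| < ε / 2 := by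
      intro c
      obtain ⟨q, hq1, hq2⟩ := exists_rat_btwn (show c < c + ε / 2 by linarith)
      exact ⟨q, by rw [abs_lt]; constructor <;> linarith⟩
    choose q hq using hq
    refine ⟨G.image q, ?_, ?_⟩
    · have h1 : ((G.image q).card : ℝ) ≤ Nc ((ε : ℝ) / 2) K := by
        rw [← hG]; exact_mod_cast Finset.card_image_le
      have h2 : (Nc ((ε : ℝ) / 2) K : ℝ) ≤ C * ((ε : ℝ) / 2) ^ (-((s' : ℚ) : ℝ)) :=
        hC (ε / 2) ⟨by positivity, by linarith⟩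
      have h3 : ((ε : ℝ) / 2) ^ (-((s' : ℚ) : ℝ)) = (2 : ℝ) ^ ((s' : ℚ) : ℝ) *
          (ε : ℝ) ^ (-((s' : ℚ) : ℝ)) := by
        rw [Real.div_rpow hε0'.le (by norm_num), Real.rpow_neg (by norm_num : (0:ℝ) ≤ 2)]
        field_simp
      have hpos : 0 < (ε : ℝ) ^ (-((s' : ℚ) : ℝ)) := Real.rpow_pos_of_pos hε0' _
      refine h1.trans (h2.trans ?_)
      rw [h3]
      calc C * ((2 : ℝ) ^ ((s' : ℚ) : ℝ) * (ε : ℝ) ^ (-((s' : ℚ) : ℝ)))
          ≤ max C 0 * ((2 : ℝ) ^ ((s' : ℚ) : ℝ) * (ε : ℝ) ^ (-((s' : ℚ) : ℝ))) :=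
            mul_le_mul_of_nonneg_right (le_max_left _ _) (by positivity)
        _ = (max C 0 * (2 : ℝ) ^ ((s' : ℚ) : ℝ)) * (ε : ℝ) ^ (-((s' : ℚ) : ℝ)) := by ring
        _ ≤ _ := mul_le_mul_of_nonneg_right (Nat.le_ceil _) hpos.le
    · intro x hx
      obtain ⟨c, hc, hxc⟩ := hGc x hx
      simp only [mem_iUnion]
      refine ⟨q c, Finset.mem_image_of_mem _ hc, ?_⟩
      have := hq c
      rw [abs_lt] at this
      rw [abs_le] at hxc
      constructor <;> linarith [this.1, this.2, hxc.1, hxc.2]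
  · intro h s' hs'
    obtain ⟨t, ht1, ht2⟩ := exists_rat_btwn (show s < s' from hs')
    obtain ⟨C, hC⟩ := h ⟨t, ht1⟩
    refine ⟨C * max 1 ((2 : ℝ) ^ (t : ℝ)), ?_⟩
    intro ε hε
    obtain ⟨ε', h1, h2⟩ := exists_rat_btwn (show ε / 2 < ε by linarith [hε.1])
    have hε'0 : (0 : ℝ) < ε' := by linarith [hε.1]
    have hε'1 : (ε' : ℝ) < 1 := by linarith [hε.2]
    obtain ⟨F, hF1, hF2⟩ := hC ⟨ε', by exact_mod_cast hε'0, by exact_mod_cast hε'1⟩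
    have h3 : Nc ε K ≤ (F.image (fun q : ℚ => (q : ℝ))).card := by
      apply Nc_le hε.1.le
      intro x hx
      have := hF2 hx
      simp only [mem_iUnion] at this
      obtain ⟨c, hc, hx1, hx2⟩ := this
      refine ⟨(c : ℝ), Finset.mem_image_of_mem _ hc, ?_⟩
      rw [abs_le]; constructor <;> linarith
    have h4 : (ε' : ℝ) ^ (-(t : ℝ)) ≤ max 1 ((2 : ℝ) ^ (t : ℝ)) * ε ^ (-(t : ℝ)) := by
      rcases le_or_gt 0 (t : ℝ) with ht | ht
      · have h5 : (ε' : ℝ) ^ (-(t : ℝ)) ≤ (ε / 2) ^ (-(t : ℝ)) :=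
          Real.rpow_le_rpow_of_nonpos (by linarith [hε.1]) h1.le (by linarith)
        refine h5.trans ?_
        rw [Real.div_rpow hε.1.le (by norm_num), Real.rpow_neg (by norm_num : (0:ℝ) ≤ 2), div_inv_eq_mul,
          mul_comm]
        exact mul_le_mul_of_nonneg_right (le_max_right _ _) (Real.rpow_nonneg hε.1.le _)
      · have h5 : (ε' : ℝ) ^ (-(t : ℝ)) ≤ ε ^ (-(t : ℝ)) :=
          Real.rpow_le_rpow hε'0.le h2.le (by linarith)
        refine h5.trans ?_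
        nth_rw 1 [← one_mul (ε ^ (-(t : ℝ)))]
        exact mul_le_mul_of_nonneg_right (le_max_left _ _) (Real.rpow_nonneg hε.1.le _)
    have h6 : ε ^ (-(t : ℝ)) ≤ ε ^ (-s') :=
      Real.rpow_le_rpow_of_exponent_ge hε.1 hε.2.le (by linarith)
    calc (Nc ε K : ℝ) ≤ ((F.image (fun q : ℚ => (q : ℝ))).card : ℝ) := by exact_mod_cast h3
      _ ≤ (F.card : ℝ) := by exact_mod_cast Finset.card_image_le
      _ ≤ C * (ε' : ℝ) ^ (-(t : ℝ)) := hF1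
      _ ≤ C * (max 1 ((2 : ℝ) ^ (t : ℝ)) * ε ^ (-(t : ℝ))) :=
          mul_le_mul_of_nonneg_left h4 (by positivity)
      _ ≤ C * (max 1 ((2 : ℝ) ^ (t : ℝ)) * ε ^ (-s')) :=
          mul_le_mul_of_nonneg_left (mul_le_mul_of_nonneg_left h6 (by positivity)) (by positivity)
      _ = C * max 1 ((2 : ℝ) ^ (t : ℝ)) * ε ^ (-s') := by ring

theorem ubd_lt_iff {K : Set ℝ} (t : EReal) :
    ubd K < t ↔ ∃ s : ℚ, ((s : ℝ) : EReal) < t ∧ ubd K ≤ ((s : ℝ) : EReal) := by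
  constructor
  · intro h
    obtain ⟨s, hs1, hs2⟩ := EReal.lt_iff_exists_rat_btwn.1 h
    exact ⟨s, by exact_mod_cast hs2, by exact_mod_cast hs1.le⟩
  · rintro ⟨s, h1, h2⟩
    exact lt_of_le_of_lt h2 h1

/-- measurability of the dimensions of a family of compact sets -/
theorem meas_abs {Ω : Type} [MeasurableSpace Ω] (D : Set Ω) (hD : MeasurableSet D)
    (K : Ω → Set ℝ) (hK : ∀ a ∈ D, IsCompact (K a)) (hne : ∀ a ∈ D, (K a).Nonempty)
    (hU : ∀ U : Set ℝ, IsOpen U → MeasurableSet {a | a ∈ D ∧ K a ⊆ U}) :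
    (∀ t : ℝ≥0∞, MeasurableSet {a | a ∈ D ∧ t ≤ dimH (K a)}) ∧
    (∀ t : EReal, MeasurableSet {a | a ∈ D ∧ t ≤ ubd (K a)}) := by
  constructor
  · intro t
    have h1 : {a | a ∈ D ∧ t ≤ dimH (K a)} = D \ ⋃ s : {s : ℚ // (0 : ℚ) < s},
        ⋃ (_ : (ENNReal.ofReal (s.1 : ℝ)) < t), ⋂ m : ℕ, ⋃ F : Finset (ℚ × ℚ),
        ⋃ (_ : ∑ p ∈ F, ENNReal.ofReal ((p.2 : ℝ) - p.1) ^ ((Real.toNNReal (s.1 : ℝ) : ℝ≥0) : ℝ) ≤
          ENNReal.ofReal (1 / (m + 1))),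
        {a | a ∈ D ∧ K a ⊆ ⋃ p ∈ F, Ioo ((p.1 : ℝ)) ((p.2 : ℝ))} := by
      ext a
      simp only [mem_ofPred_eq, Set.mem_sdiff, mem_iUnion, mem_iInter, exists_prop]
      refine and_congr_right (fun ha => ?_)
      rw [← not_lt, not_iff_not, dimH_lt_iff (hK a ha)]
      simp only [SmallCov, ha, true_and]
    rw [h1]
    refine hD.diff (MeasurableSet.iUnion fun s => MeasurableSet.iUnion fun _ =>
      MeasurableSet.iInter fun m => MeasurableSet.iUnion fun F => MeasurableSet.iUnion fun _ => ?_)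
    exact hU _ (isOpen_biUnion fun p _ => isOpen_Ioo)
  · intro t
    have h1 : {a | a ∈ D ∧ t ≤ ubd (K a)} = D \ ⋃ s : ℚ,
        ⋃ (_ : ((s : ℝ) : EReal) < t), ⋂ s' : {s' : ℚ // (s : ℝ) < s'}, ⋃ C : ℕ,
        ⋂ ε : {ε : ℚ // 0 < ε ∧ ε < 1}, ⋃ F : Finset ℚ,
        ⋃ (_ : (F.card : ℝ) ≤ C * ((ε.1 : ℚ) : ℝ) ^ (-((s'.1 : ℚ) : ℝ))),
        {a | a ∈ D ∧ K a ⊆ ⋃ c ∈ F, Ioo ((c : ℝ) - ε.1) ((c : ℝ) + ε.1)} := by
      ext a
      simp only [mem_ofPred_eq, Set.mem_sdiff, mem_iUnion, mem_iInter, exists_prop]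
      refine and_congr_right (fun ha => ?_)
      rw [← not_lt, not_iff_not, ubd_lt_iff t]
      refine exists_congr (fun s => and_congr_right (fun _ => ?_))
      rw [ubd_le_iff (hK a ha) (hne a ha)]
      simp only [RatCov, ha, true_and]
    rw [h1]
    refine hD.diff (MeasurableSet.iUnion fun s => MeasurableSet.iUnion fun _ =>
      MeasurableSet.iInter fun s' => MeasurableSet.iUnion fun C => MeasurableSet.iInter fun ε =>
      MeasurableSet.iUnion fun F => MeasurableSet.iUnion fun _ => ?_)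
    exact hU _ (isOpen_biUnion fun p _ => isOpen_Ioo)

end Pool.Agent.H81.ST
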