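import Pool.Agent.H81.ST.UBD

/-! TRANSFER for MP_0b97f5_mp.  helper81 -/

open Set Filter Topology Metric MeasureTheory

noncomputable section

namespace Pool.Agent.H81.ST

open H31.ST

/-- counting intervals with disjoint interiors -/
theorem count_disj {ι : Type} (I : ι → Set ℝ) (F : Finset ι) (a b l : ℝ) (hab : a ≤ b)
    (hI : ∀ i ∈ F, ∃ p q : ℝ, p < q ∧ I i = Icc p q) (hsub : ∀ i ∈ F, I i ⊆ Icc a b)
    (hlen : ∀ i ∈ F, l ≤ Metric.diam (I i))
    (hdisj : ∀ i ∈ F, ∀ j ∈ F, i ≠ j → Disjoint (interior (I i)) (interior (I j))) :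
    (F.card : ℝ) * l ≤ b - a := by
  have hvol : ∀ i ∈ F, volume (interior (I i)) = ENNReal.ofReal (Metric.diam (I i)) := by
    intro i hi
    obtain ⟨p, q, hpq, h⟩ := hI i hi
    rw [h, interior_Icc, Real.volume_Ioo, Real.diam_Icc hpq.le]
  have h1 : volume (⋃ i ∈ F, interior (I i)) = ∑ i ∈ F, volume (interior (I i)) := by
    apply measure_biUnion_finset
    · intro i hi j hj hij
      exact hdisj i hi j hj hij
    · intro i _
      exact isOpen_interior.measurableSet
  have h2 : volume (⋃ i ∈ F, interior (I i)) ≤ volume (Icc a b) := by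
    apply measure_mono
    intro x hx
    simp only [mem_iUnion] at hx
    obtain ⟨i, hi, hx⟩ := hx
    exact hsub i hi (interior_subset hx)
  rw [h1, Real.volume_Icc, Finset.sum_congr rfl hvol,
    ← ENNReal.ofReal_sum_of_nonneg (fun i _ => Metric.diam_nonneg)] at h2
  have h3 := (ENNReal.ofReal_le_ofReal_iff (by linarith)).1 h2
  refine le_trans ?_ h3
  rw [← nsmul_eq_mul, ← Finset.sum_const]
  exact Finset.sum_le_sum hlen

/-- the logarithmic bound for the number of steps -/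
def LL (K c r : ℝ) : ℝ := Real.log (K / r) / Real.log (1 / c) + 2

/-- the polylogarithmic bound for the number of intervals -/
def QQ (K c r : ℝ) : ℝ := (K * LL K c r ^ K + 1) * (4 * K * LL K c r ^ K)

theorem LL_pos {K c r : ℝ} (hK : 1 ≤ K) (hc : 0 < c) (hc1 : c < 1) (hr : 0 < r)
    (hr1 : K * r < 1) : 2 ≤ LL K c r := by
  unfold LL
  have h1 : 0 ≤ Real.log (K / r) := by
    apply Real.log_nonneg
    rw [le_div_iff₀ hr]
    nlinarith
  have h2 : 0 < Real.log (1 / c) := Real.log_pos (by rw [lt_div_iff₀ hc]; linarith)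
  have := div_nonneg h1 h2.le
  linarith

theorem core {A B : Set ℝ} {ι : Type} {I J : ι → Set ℝ} {cls : ι → ℕ}
    {K c : ℝ} (hK : 1 ≤ K) (hc : 0 < c) (hc1 : c < 1)
    (hI : ∀ i, ∃ p q : ℝ, p < q ∧ I i = Icc p q)
    (hdisj : ∀ i i', i ≠ i' → cls i = cls i' → Disjoint (interior (I i)) (interior (I i')))
    (hJ : ∀ i, Bornology.IsBounded (J i) ∧ Metric.diam (J i) ≤ K * Metric.diam (I i))
    (x : ℝ → ℝ) (i : ℝ → ℕ → ι)
    (hy : ∀ y ∈ B, x y ∈ A ∧ 1 ≤ K * Metric.diam (I (i y 0)) ∧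
      ∀ n : ℕ, x y ∈ I (i y n) ∧ y ∈ J (i y n) ∧
      Metric.diam (I (i y n)) ≤ K * c ^ n ∧
      Metric.diam (I (i y n)) ≤ K * ((n : ℝ) + 1) ^ K * Metric.diam (I (i y (n + 1))) ∧
      (cls (i y n) : ℝ) ≤ K * ((n : ℝ) + 1) ^ K) :
    ∀ r : ℝ, 0 < r → K * r < 1 → ∀ u : ℝ, ∃ F : Finset ι, (F.card : ℝ) ≤ QQ K c r ∧
      (∀ j ∈ F, Bornology.IsBounded (J j) ∧ Metric.diam (J j) ≤ K * r ∧ (J j).Nonempty) ∧
      ∀ y ∈ B, |x y - u| ≤ r → ∃ j ∈ F, y ∈ J j := by
  intro r hr hr1 u
  have hK0 : 0 < K := by linarith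
  have hL := LL_pos hK hc hc1 hr hr1
  set L := LL K c r with hLdef
  have hlogc : 0 < Real.log (1 / c) := Real.log_pos (by rw [lt_div_iff₀ hc]; linarith)
  have hLK : 0 < L ^ K := Real.rpow_pos_of_pos (by linarith) _
  -- first time
  have hex : ∀ y ∈ B, ∃ n : ℕ, Metric.diam (I (i y (n + 1))) ≤ r ∧
      (n : ℝ) + 2 ≤ L ∧ r ≤ K * L ^ K * Metric.diam (I (i y (n + 1))) ∧
      (cls (i y (n + 1)) : ℝ) ≤ K * L ^ K := by
    intro y hyB
    obtain ⟨-, h0, hn⟩ := hy y hyB
    have hsmall : ∃ n : ℕ, Metric.diam (I (i y n)) ≤ r := by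
      obtain ⟨n, hn'⟩ := exists_pow_lt_of_lt_one (y := c) (show 0 < r / K by positivity) hc1
      refine ⟨n, ((hn n).2.2.1).trans ?_⟩
      rw [lt_div_iff₀ hK0] at hn'
      linarith
    classical
    set m := Nat.find hsmall with hm
    have hm1 : Metric.diam (I (i y m)) ≤ r := Nat.find_spec hsmall
    have hm0 : m ≠ 0 := by
      intro h
      rw [h] at hm1
      have : K * Metric.diam (I (i y 0)) ≤ K * r := mul_le_mul_of_nonneg_left hm1 hK0.le
      linarith
    obtain ⟨n, hn1⟩ := Nat.exists_eq_succ_of_ne_zero hm0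
    have hprev : r < Metric.diam (I (i y n)) := by
      have := Nat.find_min hsmall (m := n) (by rw [← hm, hn1]; exact Nat.lt_succ_self n)
      exact not_le.1 this
    have hnL : (n : ℝ) + 2 ≤ L := by
      have h1 : r < K * c ^ n := hprev.trans_le (hn n).2.2.1
      have h2 : (1 / c) ^ n < K / r := by
        rw [lt_div_iff₀ hr, one_div, inv_pow, inv_mul_lt_iff₀ (by positivity)]
        linarith
      have h3 : (n : ℝ) * Real.log (1 / c) < Real.log (K / r) := by
        have := Real.log_lt_log (by positivity) h2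
        rwa [Real.log_pow] at this
      have h4 : (n : ℝ) < Real.log (K / r) / Real.log (1 / c) := by
        rw [lt_div_iff₀ hlogc]; exact h3
      rw [hLdef, LL]
      linarith
    have hmono : ((n : ℝ) + 1) ^ K ≤ L ^ K :=
      Real.rpow_le_rpow (by positivity) (by linarith) hK0.le
    have hmono2 : (((n + 1 : ℕ) : ℝ) + 1) ^ K ≤ L ^ K := by
      refine Real.rpow_le_rpow (by positivity) ?_ hK0.le
      push_cast
      linarith
    refine ⟨n, ?_, hnL, ?_, ?_⟩
    · have := hm1; rw [hn1] at this; exact this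
    · refine hprev.le.trans ((hn n).2.2.2.1.trans ?_)
      exact mul_le_mul_of_nonneg_right (mul_le_mul_of_nonneg_left hmono hK0.le) diam_nonneg
    · exact (hn (n + 1)).2.2.2.2.trans (mul_le_mul_of_nonneg_left hmono2 hK0.le)
  choose! n hn1 hn2 hn3 hn4 using hex
  set S : Set ι := {j | ∃ y ∈ B, |x y - u| ≤ r ∧ j = i y (n y + 1)} with hS
  -- properties of the members of S
  have hSprop : ∀ j ∈ S, Metric.diam (I j) ≤ r ∧ r ≤ K * L ^ K * Metric.diam (I j) ∧
      (cls j : ℝ) ≤ K * L ^ K ∧ I j ⊆ Icc (u - 2 * r) (u + 2 * r) := by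
    rintro j ⟨y, hyB, hyu, rfl⟩
    refine ⟨hn1 y hyB, hn3 y hyB, hn4 y hyB, ?_⟩
    obtain ⟨p, q, hpq, h⟩ := hI (i y (n y + 1))
    have hx := ((hy y hyB).2.2 (n y + 1)).1
    have hd := hn1 y hyB
    rw [h] at hx hd ⊢
    rw [Real.diam_Icc hpq.le] at hd
    rw [abs_le] at hyu
    intro z hz
    constructor <;> linarith [hz.1, hz.2, hx.1, hx.2, hyu.1, hyu.2]
  -- finite subsets of S
  have hfin : ∀ F : Finset ι, (F : Set ι) ⊆ S → (F.card : ℝ) ≤ QQ K c r := by
    classical
    intro F hF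
    set M := ⌊K * L ^ K⌋₊ with hM
    have hcard : F.card = ∑ k ∈ Finset.range (M + 1), (F.filter (fun j => cls j = k)).card := by
      apply Finset.card_eq_sum_card_fiberwise
      intro j hj
      have := (hSprop j (hF hj)).2.2.1
      simp only [Finset.coe_range, mem_Iio]
      have h2 : cls j ≤ M := Nat.le_floor this
      omega
    have hk : ∀ k ∈ Finset.range (M + 1),
        ((F.filter (fun j => cls j = k)).card : ℝ) ≤ 4 * K * L ^ K := by
      intro k _
      have h1 := count_disj I (F.filter (fun j => cls j = k)) (u - 2 * r) (u + 2 * r)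
        (r / (K * L ^ K)) (by linarith) (fun j _ => hI j)
        (fun j hj => (hSprop j (hF (Finset.mem_filter.1 hj).1)).2.2.2)
        (fun j hj => by
          have := (hSprop j (hF (Finset.mem_filter.1 hj).1)).2.1
          rw [div_le_iff₀ (by positivity)]
          linarith)
        (fun j hj j' hj' hne => hdisj j j' hne (by
          rw [(Finset.mem_filter.1 hj).2, (Finset.mem_filter.1 hj').2]))
      have h2 : ((F.filter (fun j => cls j = k)).card : ℝ) * (r / (K * L ^ K)) ≤ 4 * r := by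
        linarith
      have h3 : 0 < r / (K * L ^ K) := by positivity
      rw [← le_div_iff₀ h3] at h2
      refine h2.trans (le_of_eq ?_)
      field_simp
    have : (F.card : ℝ) ≤ ((M + 1 : ℕ) : ℝ) * (4 * K * L ^ K) := by
      rw [hcard]
      push_cast
      calc ∑ k ∈ Finset.range (M + 1), ((F.filter (fun j => cls j = k)).card : ℝ)
          ≤ ∑ _k ∈ Finset.range (M + 1), 4 * K * L ^ K := Finset.sum_le_sum hk
        _ = ((M : ℝ) + 1) * (4 * K * L ^ K) := by
          rw [Finset.sum_const, Finset.card_range, nsmul_eq_mul]; push_cast; ring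
    refine this.trans ?_
    unfold QQ
    apply mul_le_mul_of_nonneg_right _ (by positivity)
    push_cast
    have := Nat.floor_le (show 0 ≤ K * L ^ K by positivity)
    linarith
  have hSfin : S.Finite := by
    by_contra hinf
    obtain ⟨F, hF, hcard⟩ := (show S.Infinite from hinf).exists_subset_card_eq (⌊QQ K c r⌋₊ + 1)
    have h1 := hfin F hF
    rw [hcard] at h1
    have h2 := Nat.lt_floor_add_one (QQ K c r)
    push_cast at h1
    linarith
  refine ⟨hSfin.toFinset, hfin _ (by simp), ?_, ?_⟩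
  · intro j hj
    have hjS : j ∈ S := by simpa using hj
    refine ⟨(hJ j).1, (hJ j).2.trans (mul_le_mul_of_nonneg_left (hSprop j hjS).1 hK0.le), ?_⟩
    obtain ⟨y, hyB, hyu, rfl⟩ := hjS
    exact ⟨y, ((hy y hyB).2.2 (n y + 1)).2.1⟩
  · intro y hyB hyu
    exact ⟨i y (n y + 1), by simpa using ⟨y, hyB, hyu, rfl⟩, ((hy y hyB).2.2 (n y + 1)).2.1⟩

/-- the polylogarithm is smaller than every power -/
theorem QQ_le {K c : ℝ} (hK : 1 ≤ K) (hc : 0 < c) (hc1 : c < 1) (η : ℝ) (hη : 0 < η) :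
    ∃ C : ℝ, 0 < C ∧ ∀ r : ℝ, 0 < r → K * r < 1 → QQ K c r ≤ C * r ^ (-η) := by
  have hK0 : 0 < K := by linarith
  have hlogc : 0 < Real.log (1 / c) := Real.log_pos (by rw [lt_div_iff₀ hc]; linarith)
  set θ := η / (2 * K) with hθ
  have hθ0 : 0 < θ := by positivity
  set C1 := 1 / (θ * Real.log (1 / c)) + 2 with hC1
  have hC10 : 0 < C1 := by positivity
  refine ⟨8 * K ^ 2 * C1 ^ (2 * K) * K ^ η, by positivity, ?_⟩
  intro r hr hr1
  have hKr : 1 ≤ K / r := by rw [le_div_iff₀ hr]; nlinarith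
  have hKr0 : 0 < K / r := by positivity
  have hL := LL_pos hK hc hc1 hr hr1
  have h1 : LL K c r ≤ C1 * (K / r) ^ θ := by
    have h2 : Real.log (K / r) ≤ (K / r) ^ θ / θ := Real.log_le_rpow_div hKr0.le hθ0
    have h3 : 1 ≤ (K / r) ^ θ := Real.one_le_rpow hKr hθ0.le
    unfold LL
    have h4 : Real.log (K / r) / Real.log (1 / c) ≤ 1 / (θ * Real.log (1 / c)) * (K / r) ^ θ := by
      rw [div_le_iff₀ hlogc]
      refine h2.trans (le_of_eq ?_)
      field_simp
    rw [hC1]
    nlinarith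
  have hL0 : 0 ≤ LL K c r := by linarith
  have h5 : (LL K c r ^ K) ^ 2 ≤ C1 ^ (2 * K) * ((K / r) ^ η) := by
    have h6 : LL K c r ^ (2 * K) ≤ (C1 * (K / r) ^ θ) ^ (2 * K) :=
      Real.rpow_le_rpow hL0 h1 (by positivity)
    have h7 : (LL K c r ^ K) ^ 2 = LL K c r ^ (2 * K) := by
      rw [← Real.rpow_natCast, ← Real.rpow_mul hL0]
      congr 1; push_cast; ring
    rw [h7]
    refine h6.trans (le_of_eq ?_)
    rw [Real.mul_rpow hC10.le (by positivity), ← Real.rpow_mul hKr0.le]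
    congr 2
    rw [hθ]; field_simp
  have h8 : 1 ≤ LL K c r ^ K := Real.one_le_rpow (by linarith) hK0.le
  have h9 : QQ K c r ≤ 8 * K ^ 2 * (LL K c r ^ K) ^ 2 := by
    unfold QQ
    set z := LL K c r ^ K
    have : K * z + 1 ≤ 2 * K * z := by nlinarith
    calc (K * z + 1) * (4 * K * z) ≤ (2 * K * z) * (4 * K * z) :=
          mul_le_mul_of_nonneg_right this (by positivity)
      _ = 8 * K ^ 2 * z ^ 2 := by ring
  refine h9.trans ?_
  have h10 : (K / r) ^ η = K ^ η * r ^ (-η) := by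
    rw [Real.div_rpow hK0.le hr.le, Real.rpow_neg hr.le]; rfl
  rw [h10] at h5
  calc 8 * K ^ 2 * (LL K c r ^ K) ^ 2 ≤ 8 * K ^ 2 * (C1 ^ (2 * K) * (K ^ η * r ^ (-η))) :=
        mul_le_mul_of_nonneg_left h5 (by positivity)
    _ = _ := by ring

end Pool.Agent.H81.ST
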