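import Pool.Agent.H31.ST.Targets

/-! UBD for MP_0b97f5_mp: characterisation of the upper box dimension.  helper81 -/

open Set Filter Topology Metric MeasureTheory

noncomputable section

namespace Pool.Agent.H81.ST

open H31.ST

/-- the covering number as a natural number -/
def Nc (ε : ℝ) (K : Set ℝ) : ℕ := (Metric.externalCoveringNumber (Real.toNNReal ε) K).toNat

theorem cn_ne_top {K : Set ℝ} (hK : IsCompact K) {ε : ℝ} (hε : 0 < ε) :
    Metric.externalCoveringNumber (Real.toNNReal ε) K ≠ ⊤ := by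
  obtain ⟨N, _, hfin, hcov⟩ := exists_finite_isCover_of_isCompact (ε := Real.toNNReal ε)
    (by simpa using hε) hK
  have h1 := hcov.externalCoveringNumber_le_encard
  have h2 : N.encard ≠ ⊤ := by
    rw [encard_ne_top_iff]; exact hfin
  exact fun h => h2 (top_le_iff.1 (h ▸ h1))

theorem coe_Nc {K : Set ℝ} (hK : IsCompact K) {ε : ℝ} (hε : 0 < ε) :
    ((Nc ε K : ℕ) : ℕ∞) = Metric.externalCoveringNumber (Real.toNNReal ε) K :=
  ENat.natCast_toNat (cn_ne_top hK hε)

theorem Nc_anti {K : Set ℝ} (hK : IsCompact K) {ε δ : ℝ} (hε : 0 < ε) (h : ε ≤ δ) :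
    Nc δ K ≤ Nc ε K := by
  have h1 : ((Nc δ K : ℕ) : ℕ∞) ≤ ((Nc ε K : ℕ) : ℕ∞) := by
    rw [coe_Nc hK hε, coe_Nc hK (hε.trans_le h)]
    exact externalCoveringNumber_anti (Real.toNNReal_le_toNNReal h)
  exact_mod_cast h1

theorem one_le_Nc {K : Set ℝ} (hK : IsCompact K) (hne : K.Nonempty) {ε : ℝ} (hε : 0 < ε) :
    1 ≤ Nc ε K := by
  have h1 : ((1 : ℕ) : ℕ∞) ≤ ((Nc ε K : ℕ) : ℕ∞) := by
    rw [coe_Nc hK hε]
    have := (externalCoveringNumber_pos_iff (ε := Real.toNNReal ε) (A := K)).2 hne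
    simpa using Order.one_le_iff_pos.2 this
  exact_mod_cast h1

/-- upper bound by an explicit cover by closed intervals -/
theorem Nc_le {K : Set ℝ} {ε : ℝ} (hε : 0 ≤ ε) (F : Finset ℝ)
    (hF : ∀ x ∈ K, ∃ c ∈ F, |x - c| ≤ ε) : Nc ε K ≤ F.card := by
  have hcov : IsCover (Real.toNNReal ε) K (F : Set ℝ) := by
    rw [isCover_iff_subset_iUnion_closedBall]
    intro x hx
    obtain ⟨c, hc, hxc⟩ := hF x hx
    simp only [mem_iUnion, mem_closedBall]
    exact ⟨c, by exact_mod_cast hc, by rw [Real.dist_eq, Real.coe_toNNReal ε hε]; exact hxc⟩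
  have h1 := hcov.externalCoveringNumber_le_encard
  rw [encard_coe_eq_coe_finsetCard] at h1
  exact ENat.toNat_le_of_le_natCast h1

/-- an optimal cover -/
theorem exists_cover {K : Set ℝ} (hK : IsCompact K) {ε : ℝ} (hε : 0 < ε) :
    ∃ F : Finset ℝ, F.card = Nc ε K ∧ ∀ x ∈ K, ∃ c ∈ F, |x - c| ≤ ε := by
  have hne := cn_ne_top hK hε
  have h0 : ∃ C : Set ℝ, IsCover (Real.toNNReal ε) K C ∧
      C.encard = Metric.externalCoveringNumber (Real.toNNReal ε) K := by
    have : Nonempty { s : Set ℝ // IsCover (Real.toNNReal ε) K s } := ⟨K, IsCover.rfl⟩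
    obtain ⟨C, hC⟩ := ENat.exists_eq_iInf
      (fun C : {s : Set ℝ // IsCover (Real.toNNReal ε) K s} ↦ (C : Set ℝ).encard)
    refine ⟨C, C.2, ?_⟩
    rw [hC, Metric.externalCoveringNumber, iInf_subtype]
  obtain ⟨C, hC, hcard⟩ := h0
  have hfin : C.Finite := by
    rw [← encard_ne_top_iff, hcard]; exact hne
  refine ⟨hfin.toFinset, ?_, ?_⟩
  · have h1 : ((hfin.toFinset.card : ℕ) : ℕ∞) = ((Nc ε K : ℕ) : ℕ∞) := by
      rw [coe_Nc hK hε, ← hcard, ← encard_coe_eq_coe_finsetCard, Set.Finite.coe_toFinset]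
    exact_mod_cast h1
  · rw [isCover_iff_subset_iUnion_closedBall] at hC
    intro x hx
    have := hC hx
    simp only [mem_iUnion, mem_closedBall] at this
    obtain ⟨c, hc, hxc⟩ := this
    exact ⟨c, by simpa using hc, by rwa [Real.dist_eq, Real.coe_toNNReal ε hε.le] at hxc⟩

theorem ubd_def (K : Set ℝ) : ubd K =
    limsup (fun ε : ℝ => ((Real.log (Nc ε K : ℝ) / Real.log (1 / ε) : ℝ) : EReal)) (𝓝[>] 0) := rfl

theorem ubd_thm : T_UBD := by
  intro K hK hne s
  change ubd K ≤ s ↔ ∀ s' > s, ∃ C : ℝ, ∀ ε ∈ Ioo (0 : ℝ) 1, (Nc ε K : ℝ) ≤ C * ε ^ (-s')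
  constructor
  · intro h s' hs'
    have h1 : limsup (fun ε : ℝ => ((Real.log (Nc ε K : ℝ) / Real.log (1 / ε) : ℝ) : EReal))
        (𝓝[>] 0) < (s' : EReal) := by
      rw [← ubd_def]
      exact lt_of_le_of_lt h (by exact_mod_cast hs')
    have h2 := eventually_lt_of_limsup_lt h1
    obtain ⟨δ, hδ, hδ1⟩ : ∃ δ ∈ Ioo (0 : ℝ) 1, ∀ ε ∈ Ioo (0 : ℝ) δ,
        Real.log (Nc ε K : ℝ) / Real.log (1 / ε) < s' := by
      rw [eventually_nhdsWithin_iff, Metric.eventually_nhds_iff] at h2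
      obtain ⟨d, hd, h2⟩ := h2
      refine ⟨min d (1 / 2), ⟨by positivity, lt_of_le_of_lt (min_le_right _ _) (by norm_num)⟩, ?_⟩
      intro ε hε
      have := h2 (y := ε) (by
        rw [Real.dist_eq, sub_zero, abs_of_pos hε.1]; exact hε.2.trans_le (min_le_left _ _)) hε.1
      exact_mod_cast this
    set c : ℝ := min 1 (δ ^ (-s')) with hc
    have hc0 : 0 < c := lt_min one_pos (Real.rpow_pos_of_pos hδ.1 _)
    set C : ℝ := max 1 ((Nc (δ / 2) K : ℝ) / c) with hC
    refine ⟨C, fun ε hε => ?_⟩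
    have hεpos : 0 < ε ^ (-s') := Real.rpow_pos_of_pos hε.1 _
    rcases lt_or_ge ε δ with hlt | hge
    · have h3 := hδ1 ε ⟨hε.1, hlt⟩
      have hlog : 0 < Real.log (1 / ε) := Real.log_pos (by rw [lt_div_iff₀ hε.1]; linarith [hε.2])
      rw [div_lt_iff₀ hlog] at h3
      have hN : (0 : ℝ) < Nc ε K := by exact_mod_cast one_le_Nc hK hne hε.1
      have h4 : (Nc ε K : ℝ) ≤ ε ^ (-s') := by
        rw [← Real.log_le_log_iff hN hεpos, Real.log_rpow hε.1]
        rw [Real.log_div one_ne_zero hε.1.ne', Real.log_one] at h3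
        linarith
      calc (Nc ε K : ℝ) ≤ 1 * ε ^ (-s') := by rw [one_mul]; exact h4
        _ ≤ C * ε ^ (-s') := mul_le_mul_of_nonneg_right (le_max_left _ _) hεpos.le
    · have h5 : c ≤ ε ^ (-s') := by
        rcases le_or_gt 0 s' with h0 | h0
        · refine (min_le_left _ _).trans ?_
          exact Real.one_le_rpow_of_pos_of_le_one_of_nonpos hε.1 hε.2.le (by linarith)
        · refine (min_le_right _ _).trans ?_
          exact Real.rpow_le_rpow hδ.1.le hge (by linarith)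
      have h6 : (Nc ε K : ℝ) ≤ Nc (δ / 2) K := by
        exact_mod_cast Nc_anti hK (by linarith [hδ.1]) (by linarith [hδ.1])
      calc (Nc ε K : ℝ) ≤ Nc (δ / 2) K := h6
        _ = ((Nc (δ / 2) K : ℝ) / c) * c := by field_simp
        _ ≤ C * ε ^ (-s') := mul_le_mul (le_max_right _ _) h5 hc0.le
            (le_trans zero_le_one (le_max_left _ _))
  · intro h
    rw [ubd_def]
    refine EReal.le_of_forall_lt_iff_le.1 ?_
    intro t ht
    have ht' : s < t := by exact_mod_cast ht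
    obtain ⟨C, hC⟩ := h ((s + t) / 2) (by linarith)
    refine limsup_le_of_le (by isBoundedDefault) ?_
    set C1 := max C 1 with hC1
    have hC1pos : 0 < C1 := lt_of_lt_of_le one_pos (le_max_right _ _)
    -- log C1 / log (1/ε) → 0
    have htend : Tendsto (fun ε : ℝ => Real.log C1 / Real.log (1 / ε)) (𝓝[>] 0) (𝓝 0) := by
      have h1 : Tendsto (fun ε : ℝ => 1 / ε) (𝓝[>] 0) atTop := by
        simpa using tendsto_inv_nhdsGT_zero (𝕜 := ℝ)
      exact Tendsto.div_atTop tendsto_const_nhds (Real.tendsto_log_atTop.comp h1)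
    have hev : ∀ᶠ ε in 𝓝[>] (0 : ℝ), Real.log C1 / Real.log (1 / ε) < (t - s) / 2 :=
      htend.eventually (gt_mem_nhds (by linarith))
    have hIoo : ∀ᶠ ε in 𝓝[>] (0 : ℝ), ε ∈ Ioo (0 : ℝ) 1 := Ioo_mem_nhdsGT one_pos
    filter_upwards [hev, hIoo] with ε h1 hε
    have hlog : 0 < Real.log (1 / ε) := Real.log_pos (by rw [lt_div_iff₀ hε.1]; linarith [hε.2])
    have hN : (0 : ℝ) < Nc ε K := by exact_mod_cast one_le_Nc hK hne hε.1
    have hεpos : 0 < ε ^ (-((s + t) / 2)) := Real.rpow_pos_of_pos hε.1 _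
    have h2 : (Nc ε K : ℝ) ≤ C1 * ε ^ (-((s + t) / 2)) :=
      (hC ε hε).trans (mul_le_mul_of_nonneg_right (le_max_left _ _) hεpos.le)
    have h3 : Real.log (Nc ε K : ℝ) ≤ Real.log C1 + (s + t) / 2 * Real.log (1 / ε) := by
      have := Real.log_le_log hN h2
      rw [Real.log_mul hC1pos.ne' hεpos.ne', Real.log_rpow hε.1] at this
      rw [Real.log_div one_ne_zero hε.1.ne', Real.log_one]
      linarith
    have h4 : Real.log (Nc ε K : ℝ) / Real.log (1 / ε) ≤ t := by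
      rw [div_lt_iff₀ hlog] at h1
      rw [div_le_iff₀ hlog]
      nlinarith
    exact_mod_cast h4

end Pool.Agent.H81.ST
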